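import Pool.Agent.H89QU.Main
import Pool.Agent.TH188.ET.GrpVal
import Pool.Agent.TH673.VG.CoreInd

set_option autoImplicit false

/-! Quaternionic structures with a universal slot. -/

namespace Pool.Agent.H89QU

open Pool.Agent.H315R3.ETC Pool.Agent.W622.ETG Module
open Pool.Agent.TH188.ET (exists_char exists_factor)
open Pool.Agent.TH188.ET8 (QD_eq)
open Pool.Agent.TH673.VG

/-- values in a group, all in the group of the `β(u,·)` -/
theorem elem_of_val (S : QData) (hS : IsQuat S) (hfin : Finite S.G) {B : Type*}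
    [AddCommGroup B] (hB : ∀ b : B, b + b = 0) (β : S.G → S.G → B)
    (hmul : ∀ a b c, β a (b * c) = β a b + β a c)
    (hiff : ∀ a b c d, β a b = β c d ↔ S.q a b = S.q c d)
    (u : S.G) (hu : ∀ a b, ∃ c, β a b = β u c) : Elem S := by
  classical
  obtain ⟨-, -, hout, -⟩ := Pool.Agent.W622.ETG.all_parts
  let _ : Module (ZMod 2) (Additive S.G) := AddCommGroup.zmodModule (n := 2) (by
    intro x
    rw [two_smul]
    exact hS.exp2 x.toMul)
  have hfV : Finite (Additive S.G) := hfin
  have q1 : ∀ a, S.q a 1 = S.zero := by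
    intro a
    have := (hS.qs3 a 1 1).1 rfl
    rwa [mul_one] at this
  have b1 : ∀ a, β a 1 = 0 := by
    intro a
    have := hmul a 1 1
    rw [mul_one] at this
    exact left_eq_add.1 this
  have hz : ∀ a b, β a b = 0 ↔ S.q a b = S.zero := by
    intro a b
    rw [← b1 a, ← q1 a, hiff]
  have hsym : ∀ a b, β a b = β b a := fun a b => (hiff _ _ _ _).2 (hS.qs2 a b)
  have hmul' : ∀ a b c, β (a * b) c = β a c + β b c := by
    intro a b c
    rw [hsym, hmul, hsym c, hsym c]
  -- the form of a character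
  let frm (l : B →+ ZMod 2) : Frm (Additive S.G) :=
    AddMonoidHom.toZModLinearMap 2
      { toFun := fun a => AddMonoidHom.toZModLinearMap 2
          { toFun := fun b => l (β a.toMul b.toMul)
            map_zero' := by
              show l (β a.toMul 1) = 0
              rw [b1, map_zero]
            map_add' := fun b c => by
              show l (β a.toMul (b.toMul * c.toMul)) = _
              rw [hmul, map_add] }
        map_zero' := by
          ext b
          show l (β 1 b.toMul) = 0
          rw [hsym, b1, map_zero]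
        map_add' := fun a a' => by
          ext b
          show l (β (a.toMul * a'.toMul) b.toMul) = l _ + l _
          rw [hmul', map_add] }
  have hfrm : ∀ l a b, frm l a b = l (β a.toMul b.toMul) := fun _ _ _ => rfl
  let A : Fam (Additive S.G) :=
    { carrier := {ω | ∃ l : B →+ ZMod 2, ω = frm l}
      add_mem' := by
        rintro _ _ ⟨l, rfl⟩ ⟨l', rfl⟩
        exact ⟨l + l', by ext a b; rfl⟩
      zero_mem' := ⟨0, by ext a b; rfl⟩
      smul_mem' := by
        rintro c _ ⟨l, rfl⟩
        refine ⟨c.val • l, ?_⟩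
        ext a b
        rw [LinearMap.smul_apply, LinearMap.smul_apply, hfrm, hfrm, AddMonoidHom.nsmul_apply]
        simp }
  have hAm : ∀ ω, ω ∈ A ↔ ∃ l : B →+ ZMod 2, ω = frm l := fun _ => Iff.rfl
  set e : Additive S.G := Additive.ofMul S.neg with he
  have hEF : EFam e A := by
    rintro ω ⟨l, rfl⟩
    constructor
    · intro a b
      rw [hfrm, hfrm, hsym]
    · intro a
      have h1 : β a.toMul (S.neg * a.toMul) = 0 := (hz _ _).2 (hS.qs1 a.toMul)
      rw [hmul] at h1
      have h2 : β a.toMul a.toMul = β a.toMul S.neg := by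
        have h3 := hB (β a.toMul S.neg)
        rw [← h3] at h1
        exact add_left_cancel h1
      rw [hfrm, hfrm, h2]
      rfl
  -- linkage by gluing
  have hL : Linked A := by
    rintro ω ⟨l, rfl⟩ η ⟨m, rfl⟩ a c hac
    have hac' : ∀ b, l (β a.toMul b) = m (β c.toMul b) := by
      intro b
      have := LinearMap.congr_fun hac (Additive.ofMul b)
      rwa [hfrm, hfrm] at this
    let Φ : Additive S.G × Additive S.G →+ B :=
      AddMonoidHom.mk' (fun z => β a.toMul z.1.toMul + β c.toMul z.2.toMul) (by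
        intro z z'
        simp only [Prod.fst_add, Prod.snd_add, toMul_add, hmul]
        abel)
    let Λ : Additive S.G × Additive S.G →+ ZMod 2 :=
      AddMonoidHom.mk' (fun z => l (β a.toMul z.1.toMul) + m (β c.toMul z.2.toMul)) (by
        intro z z'
        simp only [Prod.fst_add, Prod.snd_add, toMul_add, hmul, map_add]
        abel)
    obtain ⟨k, hk⟩ := exists_factor hB Φ Λ (by
      rintro ⟨b, d⟩ h
      have h1 : β a.toMul b.toMul + β c.toMul d.toMul = 0 := h
      have h2 : β a.toMul b.toMul = β c.toMul d.toMul := by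
        have h3 := hB (β c.toMul d.toMul)
        rw [← h3] at h1
        exact add_right_cancel h1
      obtain ⟨x, hx1, hx2⟩ := hS.qs4 _ _ _ _ ((hiff _ _ _ _).1 h2)
      have e1 := (hiff _ _ _ _).2 hx1
      have e2 := (hiff _ _ _ _).2 hx2
      show l (β a.toMul b.toMul) + m (β c.toMul d.toMul) = 0
      rw [e1, e2, hac']
      exact CharTwo.add_self_eq_zero _)
    refine ⟨frm k, ⟨k, rfl⟩, ?_, ?_⟩
    · ext b
      rw [hfrm, hfrm]
      have := hk (b, 0)
      have h1 : Φ (b, 0) = β a.toMul b.toMul := by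
        show β a.toMul b.toMul + β c.toMul 1 = _
        rw [b1, add_zero]
      have h2 : Λ (b, 0) = l (β a.toMul b.toMul) := by
        show l (β a.toMul b.toMul) + m (β c.toMul 1) = _
        rw [b1, map_zero, add_zero]
      rw [h1, h2] at this
      exact this
    · ext b
      rw [hfrm, hfrm]
      have := hk (0, b)
      have h1 : Φ (0, b) = β c.toMul b.toMul := by
        show β a.toMul 1 + β c.toMul b.toMul = _
        rw [b1, zero_add]
      have h2 : Λ (0, b) = m (β c.toMul b.toMul) := by
        show l (β a.toMul 1) + m (β c.toMul b.toMul) = _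
        rw [b1, map_zero, zero_add]
      rw [h1, h2] at this
      rw [this]
      exact (hac' _).symm
  -- `u`
  have hU : ∀ ω ∈ A, ω (Additive.ofMul u) = 0 → ω = 0 := by
    rintro ω ⟨l, rfl⟩ h
    ext a b
    rw [hfrm]
    obtain ⟨c, hc⟩ := hu a.toMul b.toMul
    rw [hc]
    exact LinearMap.congr_fun h (Additive.ofMul c)
  have hElem : Elem (QD e A) := hout _ _ _ (el_of_uni _ A rfl ⟨hEF, hL, hU⟩)
  refine Elem.iso _ _ hElem ⟨MulEquiv.multiplicativeAdditive S.G, rfl, ?_⟩
  intro a b c d
  refine Iff.trans (QD_eq A _ _ _ _) ?_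
  constructor
  · intro h
    show S.q a.toAdd.toMul b.toAdd.toMul = S.q c.toAdd.toMul d.toAdd.toMul
    rw [← hiff]
    by_contra hne
    obtain ⟨l, -, hl⟩ := exists_char (⊥ : AddSubgroup B) (fun x => by
      rw [AddSubgroup.mem_bot]; exact hB x)
      (β a.toAdd.toMul b.toAdd.toMul - β c.toAdd.toMul d.toAdd.toMul) (by
        rw [AddSubgroup.mem_bot, sub_eq_zero]; exact hne)
    apply hl
    rw [map_sub, sub_eq_zero]
    exact h (frm l) ⟨l, rfl⟩
  · rintro h ω ⟨l, rfl⟩
    rw [hfrm, hfrm]
    congr 1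
    exact (hiff _ _ _ _).2 h


/-- a finite quaternionic structure with a universal slot is of elementary type -/
theorem elem_of_universal {S : QData} (hS : IsQuat S) (hfin : Finite S.G) {u : S.G}
    (hu : Universal S u) : Elem S := by
  classical
  have g2 : ∀ x : S.G, x * x = 1 := hS.exp2
  let N : Subgroup S.G := D hS u
  have hN : ∀ x, x ∈ N ↔ S.q u x = S.zero := fun x => mem_D hS
  choose κ hκ using hu
  let β : S.G → S.G → Additive (S.G ⧸ N) := fun a b => Additive.ofMul (QuotientGroup.mk (κ a b))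
  have hcls : ∀ x y : S.G, (Additive.ofMul (QuotientGroup.mk x : S.G ⧸ N) =
      Additive.ofMul (QuotientGroup.mk y : S.G ⧸ N)) ↔ S.q u x = S.q u y := by
    intro x y
    rw [Additive.ofMul.injective.eq_iff, QuotientGroup.eq, hN, hS.qs3,
      inv_eq_of_mul_eq_one_left (g2 x)]
  refine elem_of_val S hS hfin (B := Additive (S.G ⧸ N)) ?_ β ?_ ?_ u ?_
  · intro b
    obtain ⟨x, hx⟩ := QuotientGroup.mk_surjective b.toMul
    have : b = Additive.ofMul (QuotientGroup.mk x : S.G ⧸ N) := by rw [hx]; rfl
    rw [this, ← ofMul_mul, ← QuotientGroup.mk_mul, g2]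
    rfl
  · intro a b c
    show Additive.ofMul (QuotientGroup.mk (κ a (b * c)) : S.G ⧸ N) =
      Additive.ofMul (QuotientGroup.mk (κ a b) : S.G ⧸ N) +
        Additive.ofMul (QuotientGroup.mk (κ a c) : S.G ⧸ N)
    rw [← ofMul_mul, ← QuotientGroup.mk_mul, hcls, ← hκ]
    -- common slots
    obtain ⟨z, hz1, hz2⟩ := hS.qs4 a b u (κ a b) (hκ a b)
    obtain ⟨w, hw1, hw2⟩ := hS.qs4 a c u (κ a c) (hκ a c)
    have e1 : S.q a z = S.q u z := by rw [← hz1, ← hz2]; exact hκ a b
    have e2 : S.q a w = S.q u w := by rw [← hw1, ← hw2]; exact hκ a c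
    have e3 : S.q a (z * w) = S.q u (z * w) := by
      rw [q_eq_iff hS] at e1 e2 ⊢
      exact (D hS (a * u)).mul_mem e1 e2
    have e4 : S.q a (b * c) = S.q a (z * w) := by
      rw [hS.qs3] at hz1 hw1 ⊢
      have h1 := (D hS a).mul_mem ((mem_D hS).2 hz1) ((mem_D hS).2 hw1)
      rw [mem_D] at h1
      have : b * c * (z * w) = b * z * (c * w) := mul_mul_mul_comm b c z w
      rw [this]; exact h1
    have e5 : S.q u (κ a b * κ a c) = S.q u (z * w) := by
      rw [hS.qs3] at hz2 hw2 ⊢
      have h1 := (D hS u).mul_mem ((mem_D hS).2 hz2) ((mem_D hS).2 hw2)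
      rw [mem_D] at h1
      have : κ a b * κ a c * (z * w) = κ a b * z * (κ a c * w) := mul_mul_mul_comm _ _ z w
      rw [this]; exact h1
    rw [e4, e3, e5]
  · intro a b c d
    show (Additive.ofMul (QuotientGroup.mk (κ a b) : S.G ⧸ N) =
      Additive.ofMul (QuotientGroup.mk (κ c d) : S.G ⧸ N)) ↔ _
    rw [hcls, ← hκ, ← hκ]
  · intro a b
    refine ⟨κ a b, ?_⟩
    show Additive.ofMul (QuotientGroup.mk (κ a b) : S.G ⧸ N) =
      Additive.ofMul (QuotientGroup.mk (κ u (κ a b)) : S.G ⧸ N)
    rw [hcls]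
    exact hκ u (κ a b)

end Pool.Agent.H89QU
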