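import Pool.Agent.H89QU.Prod
import Pool.Agent.TH673.VG.FieldInd

set_option autoImplicit false

/-! Fields whose quaternion algebras have a common slot. -/

namespace Pool.Agent.H89QU

open scoped Quaternion
open Pool.Agent.H315R3.ETC Pool.Agent.TH188.ET Pool.Agent.TH673.VG

/-- all quaternion algebras over `F` have the common slot `a`: for all `b, c` there is `d` such
that the quaternion algebras `(b,c)` and `(a,d)` are isomorphic -/
def CommonSlot (F : Type*) [Field F] (a : Fˣ) : Prop :=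
  ∀ b c : Fˣ, ∃ d : Fˣ, Nonempty (ℍ[F,(b : F),0,(c : F)] ≃ₐ[F] ℍ[F,(a : F),0,(d : F)])

/-- any finitely many quaternion algebras over `F` have a common slot -/
def StronglyLinked (F : Type*) [Field F] : Prop :=
  ∀ (n : ℕ) (b c : Fin n → Fˣ), ∃ a : Fˣ, ∀ i, ∃ d : Fˣ,
    Nonempty (ℍ[F,(b i : F),0,(c i : F)] ≃ₐ[F] ℍ[F,(a : F),0,(d : F)])

section
variable {F : Type*} [Field F] {S : QData}

theorem slot_iff (hS : IsStructureOf F S) : (∃ a, CommonSlot F a) ↔ ∃ u, Universal S u := by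
  obtain ⟨φ, hs, -, -, -, hq⟩ := hS
  constructor
  · rintro ⟨a, ha⟩
    refine ⟨φ a, fun x y => ?_⟩
    obtain ⟨b, rfl⟩ := hs x
    obtain ⟨c, rfl⟩ := hs y
    obtain ⟨d, hd⟩ := ha b c
    exact ⟨φ d, (hq b c a d).2 hd⟩
  · rintro ⟨u, hu⟩
    obtain ⟨a, rfl⟩ := hs u
    refine ⟨a, fun b c => ?_⟩
    obtain ⟨z, hz⟩ := hu (φ b) (φ c)
    obtain ⟨d, rfl⟩ := hs z
    exact ⟨d, (hq b c a d).1 hz⟩

theorem linked_iff (hS : IsStructureOf F S) (hfin : Finite S.G) :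
    StronglyLinked F ↔ ∃ a, CommonSlot F a := by
  constructor
  · intro h
    obtain ⟨φ, hs, -, -, -, hq⟩ := hS
    -- enumerate the pairs
    obtain ⟨n, ⟨e⟩⟩ := Finite.exists_equiv_fin (S.G × S.G)
    choose r hr using hs
    obtain ⟨a, ha⟩ := h n (fun i => r (e.symm i).1) (fun i => r (e.symm i).2)
    refine ⟨a, fun b c => ?_⟩
    obtain ⟨d, hd⟩ := ha (e (φ b, φ c))
    rw [e.symm_apply_apply] at hd
    refine ⟨d, ?_⟩
    rw [← hq] at hd ⊢
    rwa [hr, hr] at hd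
  · rintro ⟨a, ha⟩ n b c
    exact ⟨a, fun i => ha (b i) (c i)⟩

end

/-- the main theorem for fields -/
theorem field_slot {F : Type*} [Field F] (h2 : (2 : F) ≠ 0) (hfin : FinSq F) :
    ((∃ a, CommonSlot F a) → ∃ S : QData, Elem S ∧ IsStructureOf F S) ∧
    ((∃ a, CommonSlot F a) ↔ ∃ S : QData, ProdEx S ∧ IsStructureOf F S) ∧
    ((∃ a, CommonSlot F a) ↔ fieldCore F = ⊤) ∧
    (StronglyLinked F ↔ ∃ a, CommonSlot F a) := by
  obtain ⟨S, hS, hSfin, hSq, hi, ht⟩ := field_core h2 hfin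
  obtain ⟨h1, h3⟩ := universal_iff hSq hSfin
  refine ⟨fun h => ?_, ?_, ?_, linked_iff hS hSfin⟩
  · obtain ⟨u, hu⟩ := (slot_iff hS).1 h
    exact ⟨S, elem_of_universal hSq hSfin hu, hS⟩
  · rw [slot_iff hS, h1]
    constructor
    · intro h
      exact ⟨S, h, hS⟩
    · rintro ⟨T, hT, hTs⟩
      exact ProdEx.iso T S hT hSq (iso_of_structure hTs hS)
  · rw [slot_iff hS, h3, ht]

end Pool.Agent.H89QU
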