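import Pool.Agent.H89QU.Uni

set_option autoImplicit false
set_option linter.unusedSectionVars false

namespace Pool.Agent.H89QU

open Module Pool.Agent.W622.ETG

universe u

section
variable {V : Type u} [AddCommGroup V] [Module (ZMod 2) V] [Finite V] {e u : V} {A : Fam V}

/-- an irreducible summand of `h` splits off -/
theorem Irr.disj_of_le (H : Uni e u A) {f : Frm V} (hf : Irr A f) {h : Frm V} (hh : h ∈ A)
    (hle : sp f ≤ sp h) : Disjoint (sp f) (sp (h + f)) := by
  rw [Submodule.disjoint_def]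
  intro φ hφ1 hφ2
  by_contra hφ0
  obtain ⟨x, hx⟩ := hle ⟨u, rfl⟩
  have hfx : f x = f u := H.f1 hh hf.1 hx
  have hhf : h + f ∈ A := A.add_mem hh hf.1
  obtain ⟨b, hb⟩ := hφ2
  have hx0 : (h + f) x = 0 := by rw [LinearMap.add_apply, hx, hfx, vadd]
  have hb' : (h + f) (b + x) = φ := by rw [map_add, hb, hx0, add_zero]
  have h1 := Irr.sign H hf hφ1 hφ0 hhf hb
  have h2 := Irr.sign H hf hφ1 hφ0 hhf hb'
  rw [map_add, hfx] at h2
  have hu0 := Irr.u_ne H hf
  have h3 : f u = φ := by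
    rcases h1 with h1 | h1 <;> rcases h2 with h2 | h2
    · rw [h1, zero_add] at h2; exact absurd h2 hu0
    · rw [h1, zero_add] at h2; exact h2
    · rw [h1] at h2; exact (aez.1 h2).symm
    · rw [h1] at h2; exact absurd (left_eq_add.1 h2.symm) hu0
  have h4 : (h + f) b = f u := by rw [hb, h3]
  have h5 := H.f3 hhf hf.1 h4 hx0
  exact hu0 (by rw [← hfx, h5])

/-- the nonzero common values of an irreducible `f` and `h` with `f ≰ h` are equal -/
theorem Irr.inter (H : Uni e u A) {f : Frm V} (hf : Irr A f) {h : Frm V} (hh : h ∈ A)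
    (hle : ¬ sp f ≤ sp h) {φ : Dl V} (h1 : φ ∈ sp f) (h2 : φ ∈ sp h) (h0 : φ ≠ 0) :
    (∀ r, h r = 0 → f r = 0 ∨ f r = φ) ∧ ∃ r, h r = 0 ∧ f r = φ := by
  obtain ⟨b, hb⟩ := h2
  have key : ∀ r, h r = 0 → f r = 0 ∨ f r = φ := by
    intro r hr
    have e1 := Irr.sign H hf h1 h0 hh hb
    have e2 := Irr.sign H hf h1 h0 hh (c := b + r) (by rw [map_add, hr, add_zero, hb])
    rw [map_add] at e2
    rcases e1 with e1 | e1 <;> rcases e2 with e2 | e2 <;> rw [e1] at e2
    · left; rwa [zero_add] at e2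
    · right; rwa [zero_add] at e2
    · right; exact (aez.1 e2).symm
    · left; exact left_eq_add.1 e2.symm
  refine ⟨key, ?_⟩
  by_contra hc
  push Not at hc
  apply hle
  exact le_of_ker (H.ef h hh) (H.ef f hf.1) fun y hy => (key y hy).resolve_right (hc y hy)

theorem Irr.inter_eq (H : Uni e u A) {f : Frm V} (hf : Irr A f) {h : Frm V} (hh : h ∈ A)
    (hle : ¬ sp f ≤ sp h) {φ φ' : Dl V} (h1 : φ ∈ sp f) (h2 : φ ∈ sp h) (h0 : φ ≠ 0)
    (h1' : φ' ∈ sp f) (h2' : φ' ∈ sp h) (h0' : φ' ≠ 0) : φ = φ' := by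
  obtain ⟨k1, r, hr, hr'⟩ := Irr.inter H hf hh hle h1 h2 h0
  obtain ⟨k2, -⟩ := Irr.inter H hf hh hle h1' h2' h0'
  rcases k2 r hr with h | h
  · rw [h] at hr'; exact absurd hr'.symm h0
  · rw [← hr', h]

/-- independence of supports of a finite set of forms -/
def Ind (s : Finset (Frm V)) : Prop :=
  ∀ τ : Frm V → Dl V, (∀ f ∈ s, τ f ∈ sp f) → ∑ f ∈ s, τ f = 0 → ∀ f ∈ s, τ f = 0

theorem Ind.mono {s t : Finset (Frm V)} (h : Ind s) (hts : t ⊆ s) : Ind t := by
  classical
  intro τ h1 h2 f hf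
  have := h (fun f => if f ∈ t then τ f else 0) (fun f _ => by
    by_cases hft : f ∈ t
    · rw [if_pos hft]; exact h1 f hft
    · rw [if_neg hft]; exact Submodule.zero_mem _) (by
    rw [Finset.sum_ite_mem, Finset.inter_eq_right.2 hts, h2]) f (hts hf)
  rwa [if_pos hf] at this

theorem sum_apply (s : Finset (Frm V)) (x : V) : (∑ f ∈ s, f) x = ∑ f ∈ s, f x := by
  rw [LinearMap.sum_apply]

theorem Ind.ker {s : Finset (Frm V)} (h : Ind s) {x : V} (hx : (∑ f ∈ s, f) x = 0) :
    ∀ f ∈ s, f x = 0 :=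
  h (fun f => f x) (fun f _ => ⟨x, rfl⟩) (by rw [← sum_apply]; exact hx)

theorem Ind.val {s : Finset (Frm V)} (h : Ind s) {x : V} {τ : Frm V → Dl V}
    (hτ : ∀ f ∈ s, τ f ∈ sp f) (hx : (∑ f ∈ s, f) x = ∑ f ∈ s, τ f) :
    ∀ f ∈ s, f x = τ f := by
  intro f hf
  have := h (fun f => f x + τ f) (fun f hf => Submodule.add_mem _ ⟨x, rfl⟩ (hτ f hf)) (by
    rw [Finset.sum_add_distrib, ← sum_apply, hx, vadd]) f hf
  exact aez.1 this

theorem sum_mem' {s : Finset (Frm V)} (hs : ∀ f ∈ s, f ∈ A) : ∑ f ∈ s, f ∈ A :=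
  Submodule.sum_mem _ hs

/-- the values of the sum of an independent set -/
theorem Ind.mem_sp (hA : EFam e A) {s : Finset (Frm V)} (h : Ind s) (hs : ∀ f ∈ s, f ∈ A)
    {τ : Frm V → Dl V} (hτ : ∀ f ∈ s, τ f ∈ sp f) : ∑ f ∈ s, τ f ∈ sp (∑ f ∈ s, f) := by
  have hm := sum_mem' hs
  rw [(hA _ hm).mem_sp_iff]
  intro b hb
  have h1 := h.ker hb
  rw [LinearMap.sum_apply]
  exact Finset.sum_eq_zero fun f hf => (hA f (hs f hf)).mem_sp_iff.1 (hτ f hf) b (h1 f hf)

theorem Ind.le (hA : EFam e A) {s : Finset (Frm V)} (h : Ind s) (hs : ∀ f ∈ s, f ∈ A)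
    {f : Frm V} (hf : f ∈ s) : sp f ≤ sp (∑ f ∈ s, f) :=
  le_of_ker (hA _ (sum_mem' hs)) (hA f (hs f hf)) fun _ hy => h.ker hy f hf

/-- irreducible summands of the sum of an independent set of irreducible members -/
theorem Ind.mem_of_le (H : Uni e u A) {s : Finset (Frm V)} (h : Ind s)
    (hs : ∀ f ∈ s, Irr A f) {g : Frm V} (hg : Irr A g) (hle : sp g ≤ sp (∑ f ∈ s, f)) :
    g ∈ s := by
  classical
  have hsA : ∀ f ∈ s, f ∈ A := fun f hf => (hs f hf).1
  have hm := sum_mem' hsA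
  obtain ⟨x, hx⟩ := hle ⟨u, rfl⟩
  have hgx : g x = g u := H.f1 hm hg.1 hx
  -- some `f x` is nonzero
  obtain ⟨f, hf, hfx⟩ : ∃ f ∈ s, f x ≠ 0 := by
    by_contra hc
    push Not at hc
    have : (∑ f ∈ s, f) x = 0 := by rw [sum_apply]; exact Finset.sum_eq_zero hc
    rw [this] at hx
    exact Irr.u_ne H hg hx.symm
  -- `y` with `h y = f u`
  obtain ⟨y, hy⟩ := (h.le H.ef hsA hf) ⟨u, rfl⟩
  have hfy : f y = f u := H.f1 hm (hsA f hf) hy
  have h1 : (∑ f ∈ s, f) (x + y) = (g + f) u := by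
    rw [map_add, hx, hy]; rfl
  have h2 := H.f1 hm (A.add_mem hg.1 (hsA f hf)) h1
  have h3 : f x = g y := by
    rw [LinearMap.add_apply, LinearMap.add_apply, map_add, map_add, hgx, hfy] at h2
    have h4 : g y + f x = 0 := by
      have : g u + g y + (f x + f u) = (g u + f u) + (g y + f x) := by abel
      rw [this] at h2
      exact left_eq_add.1 h2.symm
    exact (aez.1 h4).symm
  have h4 := Irr.sign H (hs f hf) (φ := f x) ⟨x, rfl⟩ hfx hg.1 (c := y) h3.symm
  rw [hfy] at h4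
  have h5 : f u = f x := h4.resolve_left (Irr.u_ne H (hs f hf))
  have h6 : sp f ≤ sp g := H.le_of_mem hg.1 (hsA f hf) (by rw [h5, h3]; exact ⟨y, rfl⟩)
  rcases hg.2.2 f (hsA f hf) h6 with h7 | h7
  · exact absurd h7 (hs f hf).2.1
  · rw [← h7]; exact hf

/-- irreducible members with pairwise disjoint supports are independent -/
theorem ind_of_pairwise (H : Uni e u A) : ∀ (n : ℕ) (s : Finset (Frm V)), s.card = n →
    (∀ f ∈ s, Irr A f) → (∀ f ∈ s, ∀ g ∈ s, f ≠ g → Disjoint (sp f) (sp g)) → Ind s := by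
  classical
  intro n
  induction n using Nat.strong_induction_on with
  | _ n ih =>
    intro s hn hs hp τ hτ hsum
    by_contra hcon
    push Not at hcon
    obtain ⟨f0, hf0, hτ0⟩ := hcon
    have hsA : ∀ f ∈ s, f ∈ A := fun f hf => (hs f hf).1
    -- smaller sets are independent
    have hI : ∀ f ∈ s, Ind (s.erase f) := by
      intro f hf
      refine ih (s.erase f).card ?_ _ rfl (fun g hg => hs g (Finset.mem_of_mem_erase hg))
        (fun g hg k hk => hp g (Finset.mem_of_mem_erase hg) k (Finset.mem_of_mem_erase hk))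
      rw [← hn]
      exact Finset.card_erase_lt_of_mem hf
    have hAe : ∀ f ∈ s, ∀ g ∈ s.erase f, g ∈ A := fun f _ g hg => hsA g (Finset.mem_of_mem_erase hg)
    -- relations which vanish somewhere vanish
    have hz : ∀ σ : Frm V → Dl V, (∀ f ∈ s, σ f ∈ sp f) → ∑ f ∈ s, σ f = 0 →
        (∃ f ∈ s, σ f = 0) → ∀ f ∈ s, σ f = 0 := by
      rintro σ h1 h2 ⟨f, hf, h3⟩ g hg
      by_cases hgf : g = f
      · rw [hgf, h3]
      · refine hI f hf σ (fun k hk => h1 k (Finset.mem_of_mem_erase hk)) ?_ g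
          (Finset.mem_erase.2 ⟨hgf, hg⟩)
        rw [← Finset.add_sum_erase s σ hf, h3, zero_add] at h2
        exact h2
    have hτ1 : ∀ f ∈ s, τ f ≠ 0 := fun f hf h => hτ0 (hz τ hτ hsum ⟨f, hf, h⟩ f0 hf0)
    -- the sum
    set h : Frm V := ∑ f ∈ s, f with hh
    have hhA : h ∈ A := sum_mem' hsA
    have her : ∀ f ∈ s, h + f = ∑ g ∈ s.erase f, g := by
      intro f hf
      rw [hh, ← Finset.add_sum_erase s (fun f => f) hf, add_comm, ← add_assoc]
      show f + f + _ = _
      rw [add_self', zero_add]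
    have hval : ∀ (σ : Frm V → Dl V), (∀ f ∈ s, σ f ∈ sp f) → ∑ f ∈ s, σ f = 0 →
        ∀ f ∈ s, σ f ∈ sp (h + f) := by
      intro σ h1 h2 f hf
      rw [her f hf]
      have h3 : σ f = ∑ g ∈ s.erase f, σ g := by
        rw [← Finset.add_sum_erase s σ hf] at h2
        exact aez.1 h2
      rw [h3]
      exact (hI f hf).mem_sp H.ef (hAe f hf) fun g hg => h1 g (Finset.mem_of_mem_erase hg)
    -- no `f ∈ s` is below `h`
    have hno : ∀ f ∈ s, ¬ sp f ≤ sp h := by
      intro f hf hle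
      have h1 := Irr.disj_of_le H (hs f hf) hhA hle
      rw [Submodule.disjoint_def] at h1
      exact hτ1 f hf (h1 _ (hτ f hf) (hval τ hτ hsum f hf))
    -- relations are `0` or `τ`
    have huniq : ∀ σ : Frm V → Dl V, (∀ f ∈ s, σ f ∈ sp f) → ∑ f ∈ s, σ f = 0 →
        (∀ f ∈ s, σ f = 0) ∨ (∀ f ∈ s, σ f = τ f) := by
      intro σ h1 h2
      by_cases h3 : σ f0 = 0
      · exact Or.inl (hz σ h1 h2 ⟨f0, hf0, h3⟩)
      · right
        have hle : ¬ sp f0 ≤ sp (h + f0) := by
          intro hle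
          rw [her f0 hf0] at hle
          have h4 := (hI f0 hf0).mem_of_le H (fun g hg => hs g (Finset.mem_of_mem_erase hg))
            (hs f0 hf0) hle
          exact Finset.notMem_erase _ _ h4
        have h4 : σ f0 = τ f0 := Irr.inter_eq H (hs f0 hf0) (A.add_mem hhA (hsA f0 hf0)) hle
          (h1 f0 hf0) (hval σ h1 h2 f0 hf0) h3 (hτ f0 hf0) (hval τ hτ hsum f0 hf0) hτ0
        have h5 := hz (fun f => σ f + τ f) (fun f hf => Submodule.add_mem _ (h1 f hf) (hτ f hf))
          (by rw [Finset.sum_add_distrib, h2, hsum, add_zero]) ⟨f0, hf0, by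
            show σ f0 + τ f0 = 0
            rw [h4, vadd]⟩
        intro f hf
        exact aez.1 (h5 f hf)
    have hrel : ∀ x, h x = 0 → (∀ f ∈ s, f x = 0) ∨ (∀ f ∈ s, f x = τ f) := by
      intro x hx
      refine huniq (fun f => f x) (fun f _ => ⟨x, rfl⟩) ?_
      rw [← sum_apply]; exact hx
    -- `τ f (u) = 1`
    have htu : ∀ f ∈ s, τ f u = 1 := by
      intro f hf
      by_contra hc
      have h0 := z_ne' hc
      apply hno f hf
      refine H.le_of_mem hhA (hsA f hf) ?_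
      rw [(H.ef h hhA).mem_sp_iff]
      intro x hx
      rw [(H.ef f (hsA f hf)).symm]
      rcases hrel x hx with h1 | h1
      · rw [h1 f hf]; rfl
      · rw [h1 f hf, h0]
    -- a second element
    obtain ⟨g0, hg0, hne⟩ : ∃ g ∈ s, g ≠ f0 := by
      by_contra hc
      push Not at hc
      have h1 : s = {f0} := by
        ext g
        rw [Finset.mem_singleton]
        exact ⟨fun hg => hc g hg, fun hg => hg ▸ hf0⟩
      rw [h1, Finset.sum_singleton] at hsum
      exact hτ0 hsum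
    -- `f0 + g0 ≤ h`
    have hle : sp (f0 + g0) ≤ sp h := by
      refine H.le_of_mem hhA (A.add_mem (hsA _ hf0) (hsA _ hg0)) ?_
      rw [(H.ef h hhA).mem_sp_iff]
      intro x hx
      rw [(H.ef _ (A.add_mem (hsA _ hf0) (hsA _ hg0))).symm, LinearMap.add_apply,
        LinearMap.add_apply]
      rcases hrel x hx with h1 | h1
      · rw [h1 f0 hf0, h1 g0 hg0]; exact zadd _
      · rw [h1 f0 hf0, h1 g0 hg0, htu f0 hf0, htu g0 hg0]; decide
    have hle2 : sp f0 ≤ sp (f0 + g0) := by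
      refine le_of_ker (H.ef _ (A.add_mem (hsA _ hf0) (hsA _ hg0))) (H.ef _ (hsA _ hf0)) ?_
      intro y hy
      exact ((add_ker le_rfl le_rfl (hp f0 hf0 g0 hg0 hne.symm)).1 hy).1
    exact hno f0 hf0 (hle2.trans hle)

/-- `A` is spanned by its irreducible members -/
theorem Uni.mem_span (H : Uni e u A) : ∀ (n : ℕ) (h : Frm V), finrank (ZMod 2) (sp h) = n →
    h ∈ A → h ∈ Submodule.span (ZMod 2) {f | Irr A f} := by
  intro n
  induction n using Nat.strong_induction_on with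
  | _ n ih =>
    intro h hn hh
    by_cases h0 : h = 0
    · rw [h0]; exact Submodule.zero_mem _
    by_cases hi : Irr A h
    · exact Submodule.subset_span hi
    -- a proper nonzero part
    obtain ⟨η, hη, hle, h1, h2⟩ : ∃ η ∈ A, sp η ≤ sp h ∧ η ≠ 0 ∧ η ≠ h := by
      by_contra hc
      push Not at hc
      apply hi
      refine ⟨hh, h0, fun η hη hle => ?_⟩
      by_cases h3 : η = 0
      · exact Or.inl h3
      · exact Or.inr (hc η hη hle h3)
    -- the part and its complement have smaller support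
    have key : ∀ η ∈ A, sp η ≤ sp h → η ≠ 0 → sp (h + η) < sp h := by
      intro η hη hle h1
      obtain ⟨x, hx⟩ := hle ⟨u, rfl⟩
      have hηx : η x = η u := H.f1 hh hη hx
      have h3 : (h + η) x = 0 := by rw [LinearMap.add_apply, hx, hηx, vadd]
      refine lt_of_le_of_ne ?_ ?_
      · refine le_of_ker (H.ef h hh) (H.ef _ (A.add_mem hh hη)) fun y hy => ?_
        rw [LinearMap.add_apply, hy, ker_of_le (H.ef h hh) (H.ef η hη) hle hy, add_zero]
      · intro h4
        have h5 := ker_of_le (H.ef _ (A.add_mem hh hη)) (H.ef h hh) h4.ge h3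
        rw [h5] at hx
        exact h1 (H.un η hη hx.symm)
    have hη' : h + η ∈ A := A.add_mem hh hη
    have k1 := key η hη hle h1
    have k2 := key (h + η) hη' k1.le (by
      intro h3
      exact h2 (aez.1 h3).symm)
    have e1 : h + (h + η) = η := by rw [← add_assoc, add_self', zero_add]
    rw [e1] at k2
    have m1 := ih _ (hn ▸ Submodule.finrank_lt_finrank_of_lt k1) (h + η) rfl hη'
    have m2 := ih _ (hn ▸ Submodule.finrank_lt_finrank_of_lt k2) η rfl hη
    have m3 := Submodule.add_mem _ m1 m2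
    rwa [add_assoc, add_self', add_zero] at m3

end

end Pool.Agent.H89QU
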