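import Pool.Agent.H89QU.Pairs

set_option autoImplicit false
set_option linter.unusedSectionVars false

namespace Pool.Agent.H89QU

open Module Pool.Agent.W622.ETG

universe u

section
variable {V : Type u} [AddCommGroup V] [Module (ZMod 2) V] [Finite V] {e u : V} {A : Fam V}

/-- sets of irreducible members closed under sums of members which meet -/
structure Cl (A : Fam V) (P : Frm V → Prop) : Prop where
  irr : ∀ g, P g → Irr A g
  add : ∀ g g', P g → P g' → ∀ φ, Meet A g g' φ → P (g + g')

theorem Cl.merge (H : Uni e u A) {P : Frm V → Prop} (hP : Cl A P) {g g' : Frm V} (hg : P g)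
    (hg' : P g') (h : ¬ (g ≠ g' ∧ Disjoint (sp g) (sp g'))) {σ σ' : Dl V} (hσ : σ ∈ sp g)
    (hσ' : σ' ∈ sp g') : ∃ k, P k ∧ σ + σ' ∈ sp k := by
  by_cases hgg : g = g'
  · subst hgg
    exact ⟨g, hg, Submodule.add_mem _ hσ hσ'⟩
  have hnd : ¬ Disjoint (sp g) (sp g') := fun hd => h ⟨hgg, hd⟩
  obtain ⟨φ, M⟩ := exists_meet (hP.irr g hg) (hP.irr g' hg') hgg hnd
  have ha := M.mem_add H
  have hu1 : g u ∈ sp g := ⟨u, rfl⟩
  have hu2 : g' u ∈ sp g' := ⟨u, rfl⟩
  have hu3 : g u + g' u ∈ sp (g + g') := ⟨u, rfl⟩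
  rcases M.symm.sp_eq H hσ' with h2 | h2 | h2 | h2
  · exact ⟨g, hg, by rw [h2, add_zero]; exact hσ⟩
  · exact ⟨g, hg, Submodule.add_mem _ hσ (h2 ▸ M.mf)⟩
  · rcases M.sp_eq H hσ with h1 | h1 | h1 | h1 <;> rw [h1, h2]
    · exact ⟨g', hg', Submodule.add_mem _ (Submodule.zero_mem _) hu2⟩
    · exact ⟨g', hg', Submodule.add_mem _ M.mg hu2⟩
    · exact ⟨g + g', hP.add g g' hg hg' φ M, hu3⟩
    · exact ⟨g + g', hP.add g g' hg hg' φ M, by
        rw [add_assoc]; exact Submodule.add_mem _ ha hu3⟩
  · rcases M.sp_eq H hσ with h1 | h1 | h1 | h1 <;> rw [h1, h2]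
    · exact ⟨g', hg', Submodule.add_mem _ (Submodule.zero_mem _) (Submodule.add_mem _ M.mg hu2)⟩
    · exact ⟨g', hg', Submodule.add_mem _ M.mg (Submodule.add_mem _ M.mg hu2)⟩
    · refine ⟨g + g', hP.add g g' hg hg' φ M, ?_⟩
      have : g u + (φ + g' u) = φ + (g u + g' u) := by abel
      rw [this]; exact Submodule.add_mem _ ha hu3
    · refine ⟨g + g', hP.add g g' hg hg' φ M, ?_⟩
      have : φ + g u + (φ + g' u) = (φ + φ) + (g u + g' u) := by abel
      rw [this, vadd, zero_add]; exact hu3

/-- sums of values of pairwise disjoint members of `P` -/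
def WS (P : Frm V → Prop) (τ : Dl V) : Prop :=
  ∃ s : Finset (Frm V), (∀ g ∈ s, P g) ∧
    (∀ g ∈ s, ∀ g' ∈ s, g ≠ g' → Disjoint (sp g) (sp g')) ∧
    ∃ σ : Frm V → Dl V, (∀ g ∈ s, σ g ∈ sp g) ∧ τ = ∑ g ∈ s, σ g

theorem Cl.step (H : Uni e u A) {P : Frm V → Prop} (hP : Cl A P) : ∀ (n : ℕ)
    (s : Finset (Frm V)), s.card = n → (∀ g ∈ s, P g) →
    (∀ g ∈ s, ∀ g' ∈ s, g ≠ g' → Disjoint (sp g) (sp g')) →
    ∀ σ : Frm V → Dl V, (∀ g ∈ s, σ g ∈ sp g) → ∀ k, P k → ∀ ρ ∈ sp k,
      WS P (∑ g ∈ s, σ g + ρ) := by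
  classical
  intro n
  induction n with
  | zero =>
    intro s hs _ _ σ _ k hk ρ hρ
    rw [Finset.card_eq_zero.1 hs, Finset.sum_empty, zero_add]
    refine ⟨{k}, ?_, ?_, fun _ => ρ, ?_, ?_⟩
    · intro g hg; rw [Finset.mem_singleton.1 hg]; exact hk
    · intro g hg g' hg' hne
      rw [Finset.mem_singleton.1 hg, Finset.mem_singleton.1 hg'] at hne
      exact absurd rfl hne
    · intro g hg; rw [Finset.mem_singleton.1 hg]; exact hρ
    · rw [Finset.sum_singleton]
  | succ n ih =>
    intro s hs hsP hd σ hσ k hk ρ hρ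
    by_cases hall : ∀ g ∈ s, g ≠ k ∧ Disjoint (sp g) (sp k)
    · -- insert `k`
      have hks : k ∉ s := fun h => (hall k h).1 rfl
      refine ⟨insert k s, ?_, ?_, fun g => if g = k then ρ else σ g, ?_, ?_⟩
      · intro g hg
        rcases Finset.mem_insert.1 hg with h | h
        · rw [h]; exact hk
        · exact hsP g h
      · intro g hg g' hg' hne
        rcases Finset.mem_insert.1 hg with h | h <;> rcases Finset.mem_insert.1 hg' with h' | h'
        · exact absurd (h.trans h'.symm) hne
        · rw [h]; exact (hall g' h').2.symm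
        · rw [h']; exact (hall g h).2
        · exact hd g h g' h' hne
      · intro g hg
        show (if g = k then ρ else σ g) ∈ sp g
        by_cases hgk : g = k
        · rw [if_pos hgk, hgk]; exact hρ
        · rw [if_neg hgk]
          exact hσ g ((Finset.mem_insert.1 hg).resolve_left hgk)
      · rw [Finset.sum_insert hks, if_pos rfl, add_comm]
        congr 1
        refine Finset.sum_congr rfl fun g hg => ?_
        rw [if_neg (hall g hg).1]
    · push Not at hall
      obtain ⟨g, hg, hgk⟩ := hall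
      obtain ⟨k', hk', hm⟩ := hP.merge H (hsP g hg) hk (fun h => hgk h.1 h.2) (hσ g hg) hρ
      have := ih (s.erase g) (by rw [Finset.card_erase_of_mem hg, hs]; rfl)
        (fun x hx => hsP x (Finset.mem_of_mem_erase hx))
        (fun x hx y hy => hd x (Finset.mem_of_mem_erase hx) y (Finset.mem_of_mem_erase hy)) σ
        (fun x hx => hσ x (Finset.mem_of_mem_erase hx)) k' hk' _ hm
      rw [← Finset.sum_erase_add s σ hg, add_assoc]
      exact this

theorem Cl.add_mem (H : Uni e u A) {P : Frm V → Prop} (hP : Cl A P) {τ ρ : Dl V} (hτ : WS P τ)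
    (hρ : WS P ρ) : WS P (τ + ρ) := by
  classical
  obtain ⟨s, hs, -, σ, hσ, rfl⟩ := hρ
  induction s using Finset.induction_on with
  | empty => rw [Finset.sum_empty, add_zero]; exact hτ
  | insert g s hg ih =>
    rw [Finset.sum_insert hg, add_comm (σ g), ← add_assoc]
    obtain ⟨t, ht, hd, υ, hυ, e1⟩ := ih (fun x hx => hs x (Finset.mem_insert_of_mem hx))
      (fun x hx => hσ x (Finset.mem_insert_of_mem hx))
    rw [e1]
    exact hP.step H _ t rfl ht hd υ hυ g (hs g (Finset.mem_insert_self g s)) _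
      (hσ g (Finset.mem_insert_self g s))

/-- every element of the support of the span of `P` is such a sum -/
theorem Cl.supp_mem (H : Uni e u A) {P : Frm V → Prop} (hP : Cl A P) {τ : Dl V}
    (hτ : τ ∈ supp (Submodule.span (ZMod 2) {g | P g})) : WS P τ := by
  classical
  have h0 : WS P (0 : Dl V) := ⟨∅, by simp, by simp, fun _ => 0, by simp, by simp⟩
  let W : DSub V :=
    { carrier := {τ | WS P τ}
      add_mem' := fun {a b} ha hb => hP.add_mem H ha hb
      zero_mem' := h0
      smul_mem' := by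
        intro c x hx
        rcases z01 c with rfl | rfl
        · rw [zero_smul]; exact h0
        · rw [one_smul]; exact hx }
  have hle : supp (Submodule.span (ZMod 2) {g | P g}) ≤ W := by
    rw [Pool.Agent.W622.ETC.supp_le]
    intro ω hω a
    induction hω using Submodule.span_induction with
    | mem g hg =>
      refine ⟨{g}, ?_, ?_, fun _ => g a, ?_, ?_⟩
      · intro x hx; rw [Finset.mem_singleton.1 hx]; exact hg
      · intro x hx y hy hne
        rw [Finset.mem_singleton.1 hx, Finset.mem_singleton.1 hy] at hne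
        exact absurd rfl hne
      · intro x hx; rw [Finset.mem_singleton.1 hx]; exact ⟨a, rfl⟩
      · rw [Finset.sum_singleton]
    | zero => exact h0
    | add x y _ _ hx hy => exact hP.add_mem H hx hy
    | smul c x _ hx => exact W.smul_mem c hx
  exact hle hτ

/-- `K` is a component -/
structure Compo (A K : Fam V) : Prop where
  le : K ≤ A
  irr : ∀ f ∈ K, f = 0 ∨ Irr A f
  val : ∀ τ ∈ supp K, ∃ f ∈ K, τ ∈ sp f
  dis : ∀ f ∈ K, f ≠ 0 → ∀ g, Irr A g → g ∉ K → Disjoint (sp f) (sp g)

theorem Compo.disj (H : Uni e u A) {K : Fam V} (hK : Compo A K) :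
    Disjoint (supp K) (supp (Submodule.span (ZMod 2) {g | Irr A g ∧ g ∉ K})) := by
  classical
  have hP : Cl A (fun g => Irr A g ∧ g ∉ K) := by
    refine ⟨fun g hg => hg.1, fun g g' hg hg' φ M => ⟨M.irr_add H, fun hm => ?_⟩⟩
    have h1 := hK.dis (g + g') hm (M.irr_add H).2.1 g hg.1 hg.2
    rw [Submodule.disjoint_def] at h1
    exact M.n0 (h1 φ (M.mem_add H) M.mf)
  rw [Submodule.disjoint_def]
  intro τ h1 h2
  by_contra hτ
  obtain ⟨f, hf, hτf⟩ := hK.val τ h1
  have hf0 : f ≠ 0 := by
    intro h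
    rw [h] at hτf
    obtain ⟨a, ha⟩ := hτf
    exact hτ ha.symm
  have hfi : Irr A f := (hK.irr f hf).resolve_left hf0
  obtain ⟨s, hs, hd, σ, hσ, e1⟩ := hP.supp_mem H h2
  have hfs : f ∉ s := fun h => (hs f h).2 hf
  have hI : Ind (insert f s) := by
    refine ind_of_pairwise H _ _ rfl ?_ ?_
    · intro x hx
      rcases Finset.mem_insert.1 hx with h | h
      · rw [h]; exact hfi
      · exact (hs x h).1
    · intro x hx y hy hne
      rcases Finset.mem_insert.1 hx with h | h <;> rcases Finset.mem_insert.1 hy with h' | h'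
      · exact absurd (h.trans h'.symm) hne
      · rw [h]; exact hK.dis f hf hf0 y (hs y h').1 (hs y h').2
      · rw [h']; exact (hK.dis f hf hf0 x (hs x h).1 (hs x h).2).symm
      · exact hd x h y h' hne
  have h3 := hI (fun g => if g = f then τ else σ g) (by
    intro x hx
    show (if x = f then τ else σ x) ∈ sp x
    by_cases hxf : x = f
    · rw [if_pos hxf, hxf]; exact hτf
    · rw [if_neg hxf]; exact hσ x ((Finset.mem_insert.1 hx).resolve_left hxf)) (by
    rw [Finset.sum_insert hfs, if_pos rfl]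
    have h4 : ∑ x ∈ s, (if x = f then τ else σ x) = ∑ x ∈ s, σ x :=
      Finset.sum_congr rfl fun x hx => by rw [if_neg (fun h : x = f => hfs (h ▸ hx))]
    rw [h4, ← e1, vadd]) f (Finset.mem_insert_self f s)
  rw [if_pos rfl] at h3
  exact hτ h3

theorem Compo.eq_sup (H : Uni e u A) {K : Fam V} (hK : Compo A K) :
    A = K ⊔ Submodule.span (ZMod 2) {g | Irr A g ∧ g ∉ K} := by
  apply le_antisymm
  · intro h hh
    have h1 := H.mem_span _ h rfl hh
    have h2 : Submodule.span (ZMod 2) {f | Irr A f} ≤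
        K ⊔ Submodule.span (ZMod 2) {g | Irr A g ∧ g ∉ K} := by
      rw [Submodule.span_le]
      intro g hg
      by_cases hgK : g ∈ K
      · exact Submodule.mem_sup_left hgK
      · exact Submodule.mem_sup_right (Submodule.subset_span ⟨hg, hgK⟩)
    exact h2 h1
  · refine sup_le hK.le ?_
    rw [Submodule.span_le]
    intro g hg
    exact hg.1.1

/-- complements of components -/
theorem Uni.compl (H : Uni e u A) {K B : Fam V} (hA : A = K ⊔ B)
    (hd : Disjoint (supp K) (supp B)) : Uni e u B := by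
  have hB : B ≤ A := by rw [hA]; exact le_sup_right
  refine ⟨fun ω hω => H.ef ω (hB hω), ?_, fun ω hω => H.un ω (hB hω)⟩
  intro ω hω η hη a c hac
  obtain ⟨ζ, hζ, h1, h2⟩ := H.li ω (hB hω) η (hB hη) a c hac
  rw [hA] at hζ
  obtain ⟨κ, hκ, β, hβ, e1⟩ := Submodule.mem_sup.1 hζ
  have key : ∀ x, ζ x ∈ supp B → β x = ζ x := by
    intro x hx
    have h3 : κ x = ζ x + β x := by
      rw [← e1, LinearMap.add_apply, add_assoc, vadd, add_zero]
    have h4 : κ x ∈ supp B := by
      rw [h3]
      exact Submodule.add_mem _ hx (Pool.Agent.W622.ETC.sp_le_supp hβ ⟨x, rfl⟩)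
    have h5 : κ x = 0 := by
      rw [Submodule.disjoint_def] at hd
      exact hd _ (Pool.Agent.W622.ETC.sp_le_supp hκ ⟨x, rfl⟩) h4
    rw [h5] at h3
    exact (aez.1 h3.symm).symm
  have hv : ω a ∈ supp B := Pool.Agent.W622.ETC.sp_le_supp hω ⟨a, rfl⟩
  refine ⟨β, hβ, ?_, ?_⟩
  · rw [key a (h1 ▸ hv), h1]
  · rw [key c (h2 ▸ hv), h2]

theorem mem_loc {f g : Frm V} : g ∈ (Submodule.span (ZMod 2) {f} : Fam V) ↔ g = 0 ∨ g = f := by
  rw [Submodule.mem_span_singleton]
  constructor
  · rintro ⟨a, rfl⟩
    rcases z01 a with rfl | rfl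
    · left; rw [zero_smul]
    · right; rw [one_smul]
  · rintro (rfl | rfl)
    · exact ⟨0, by rw [zero_smul]⟩
    · exact ⟨1, by rw [one_smul]⟩

theorem compo_loc {f : Frm V} (hf : Irr A f)
    (hall : ∀ g, Irr A g → g ≠ f → Disjoint (sp f) (sp g)) :
    Compo A (Submodule.span (ZMod 2) {f}) := by
  constructor
  · intro g hg
    rcases mem_loc.1 hg with h | h
    · rw [h]; exact A.zero_mem
    · rw [h]; exact hf.1
  · intro g hg
    rcases mem_loc.1 hg with h | h
    · exact Or.inl h
    · right; rw [h]; exact hf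
  · intro τ hτ
    refine ⟨f, mem_loc.2 (Or.inr rfl), ?_⟩
    have : supp (Submodule.span (ZMod 2) {f}) ≤ sp f := by
      rw [Pool.Agent.W622.ETC.supp_le]
      intro ω hω a
      rcases mem_loc.1 hω with h | h
      · rw [h]; exact Submodule.zero_mem _
      · rw [h]; exact ⟨a, rfl⟩
    exact this hτ
  · intro g hg h0 k hk hkK
    rcases mem_loc.1 hg with h | h
    · exact absurd h h0
    · rw [h]
      exact hall k hk fun h' => hkK (mem_loc.2 (Or.inr h'))

/-- components exist and are of elementary type -/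
theorem exists_compo (H : Uni e u A) {f : Frm V} (hf : Irr A f) :
    ∃ K : Fam V, Compo A K ∧ f ∈ K ∧ El e K := by
  classical
  by_cases hall : ∀ g, Irr A g → g ≠ f → Disjoint (sp f) (sp g)
  · exact ⟨_, compo_loc hf hall, mem_loc.2 (Or.inr rfl), El.loc f (H.ef f hf.1)⟩
  · -- a cone
    push Not at hall
    obtain ⟨g0, hg0, hne0, hnd⟩ := hall
    obtain ⟨φ, M0⟩ := exists_meet hf hg0 hne0.symm hnd
    have hmeet : ∀ f g, Irr A f → Irr A g → f ≠ g → φ ∈ sp f → φ ∈ sp g → Meet A f g φ :=
      fun f g hf hg hne h1 h2 => ⟨hf, hg, hne, h1, h2, M0.n0⟩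
    -- every irreducible with value `φ` meets another one
    have hmate : ∀ f', Irr A f' → φ ∈ sp f' → ∃ g', Meet A g' f' φ := by
      intro f' hf' h1
      by_cases h : f' = f
      · exact ⟨g0, h ▸ M0.symm⟩
      · exact ⟨f, hmeet f f' hf hf' (fun h' => h h'.symm) M0.mf h1⟩
    let K : Fam V :=
      { carrier := {g | g = 0 ∨ (Irr A g ∧ φ ∈ sp g)}
        zero_mem' := Or.inl rfl
        add_mem' := by
          rintro a b (rfl | ha) (rfl | hb)
          · left; rw [add_zero]
          · right; rw [zero_add]; exact hb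
          · right; rw [add_zero]; exact ha
          · by_cases hab : a = b
            · left; rw [hab]; exact add_self' b
            · right
              have M := hmeet a b ha.1 hb.1 hab ha.2 hb.2
              exact ⟨M.irr_add H, M.mem_add H⟩
        smul_mem' := by
          intro c x hx
          rcases z01 c with rfl | rfl
          · left; rw [zero_smul]
          · rw [one_smul]; exact hx }
    have hKm : ∀ g, g ∈ K ↔ g = 0 ∨ (Irr A g ∧ φ ∈ sp g) := fun _ => Iff.rfl
    have hfK : f ∈ K := Or.inr ⟨hf, M0.mf⟩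
    have hgK : g0 ∈ K := Or.inr ⟨hg0, M0.mg⟩
    have hKA : K ≤ A := by
      intro g hg
      rcases hg with rfl | hg
      · exact A.zero_mem
      · exact hg.1.1
    -- the cone
    let Y : DSub V := Submodule.map (LinearMap.applyₗ u : Frm V →ₗ[ZMod 2] Dl V) K
    have hY : ∀ g ∈ K, g u ∈ Y := fun g hg => ⟨g, hg, rfl⟩
    have hwd : ∀ g ∈ K, g = wd e φ (g u) := by
      intro g hg
      rcases hg with rfl | hg
      · rw [LinearMap.zero_apply, map_zero]
      · obtain ⟨g', M⟩ := hmate g hg.1 hg.2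
        exact M.symm.eq_wd H
    have hφY : φ ∉ Y := by
      rintro ⟨g, hg, h⟩
      exact M0.not_val H (hKA hg) h
    have hKc : K = ⊥ ⊔ Submodule.map (wd e φ) Y := by
      rw [bot_sup_eq]
      apply le_antisymm
      · intro g hg
        exact ⟨g u, hY g hg, (hwd g hg).symm⟩
      · rintro _ ⟨_, ⟨g, hg, rfl⟩, rfl⟩
        have : (LinearMap.applyₗ u : Frm V →ₗ[ZMod 2] Dl V) g = g u := rfl
        rw [this, ← hwd g hg]
        exact hg
    have hElK : El e K := by
      rw [hKc]
      refine El.cone ⊥ φ Y El.zero ?_ hφY (M0.apex_e H)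
      rw [Pool.Agent.W622.ETC.supp_le]
      intro ω hω a
      rw [(Submodule.mem_bot (ZMod 2)).1 hω]
      exact Submodule.zero_mem _
    refine ⟨K, ⟨hKA, ?_, ?_, ?_⟩, hfK, hElK⟩
    · intro g hg
      rcases hg with h | h
      · exact Or.inl h
      · exact Or.inr h.1
    · -- values
      have hS : ∀ τ ∈ supp K, ∃ g ∈ K, τ = g u ∨ τ = φ + g u := by
        let W : DSub V :=
          { carrier := {τ | ∃ g ∈ K, τ = g u ∨ τ = φ + g u}
            zero_mem' := ⟨0, K.zero_mem, Or.inl rfl⟩
            add_mem' := by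
              rintro a b ⟨g, hg, h1⟩ ⟨k, hk, h2⟩
              refine ⟨g + k, K.add_mem hg hk, ?_⟩
              rcases h1 with rfl | rfl <;> rcases h2 with rfl | rfl
              · left; rfl
              · right; rw [LinearMap.add_apply]; abel
              · right; rw [LinearMap.add_apply]; abel
              · left
                have : φ + g u + (φ + k u) = (φ + φ) + (g u + k u) := by abel
                rw [this, vadd, zero_add]; rfl
            smul_mem' := by
              intro c x hx
              rcases z01 c with rfl | rfl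
              · rw [zero_smul]; exact ⟨0, K.zero_mem, Or.inl rfl⟩
              · rw [one_smul]; exact hx }
        have hle : supp K ≤ W := by
          rw [Pool.Agent.W622.ETC.supp_le]
          intro ω hω a
          rcases hω with rfl | hω
          · exact W.zero_mem
          · obtain ⟨g', M⟩ := hmate ω hω.1 hω.2
            rcases M.symm.sp_eq H ⟨a, rfl⟩ with h | h | h | h <;> rw [h]
            · exact W.zero_mem
            · exact ⟨0, K.zero_mem, Or.inr (by rw [LinearMap.zero_apply, add_zero])⟩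
            · exact ⟨ω, Or.inr hω, Or.inl rfl⟩
            · exact ⟨ω, Or.inr hω, Or.inr rfl⟩
        intro τ hτ
        exact hle hτ
      intro τ hτ
      obtain ⟨g, hg, h⟩ := hS τ hτ
      rcases hg with rfl | hg
      · refine ⟨f, hfK, ?_⟩
        rcases h with h | h <;> rw [h]
        · rw [LinearMap.zero_apply]; exact Submodule.zero_mem _
        · rw [LinearMap.zero_apply, add_zero]; exact M0.mf
      · refine ⟨g, Or.inr hg, ?_⟩
        rcases h with h | h <;> rw [h]
        · exact ⟨u, rfl⟩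
        · exact Submodule.add_mem _ hg.2 ⟨u, rfl⟩
    · intro g hg h0 k hk hkK
      have hg' := ((hKm g).1 hg).resolve_left h0
      by_contra hnd
      have hgk : g ≠ k := fun h => hkK (h ▸ hg)
      obtain ⟨ψ, N⟩ := exists_meet hg'.1 hk hgk hnd
      obtain ⟨g', M⟩ := hmate g hg'.1 hg'.2
      have h1 := M.apex_uniq H N
      exact hkK (Or.inr ⟨hk, h1 ▸ N.mg⟩)

/-- families in the situation `Uni` are of elementary type -/
theorem el_of_uni : ∀ (n : ℕ) (A : Fam V), (A : Set (Frm V)).ncard = n → Uni e u A → El e A := by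
  intro n
  induction n using Nat.strong_induction_on with
  | _ n ih =>
    intro A hn H
    by_cases hA : A = ⊥
    · rw [hA]; exact El.zero
    -- an irreducible member
    obtain ⟨f, hf⟩ : ∃ f, Irr A f := by
      by_contra hc
      push Not at hc
      apply hA
      rw [eq_bot_iff]
      intro h hh
      have h1 := H.mem_span _ h rfl hh
      have h2 : {f | Irr A f} = (∅ : Set (Frm V)) := Set.eq_empty_of_forall_notMem hc
      rw [h2, Submodule.span_empty] at h1
      exact h1
    obtain ⟨K, hK, hfK, hKe⟩ := exists_compo H hf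
    have hd := hK.disj H
    have hs := hK.eq_sup H
    set B : Fam V := Submodule.span (ZMod 2) {g | Irr A g ∧ g ∉ K} with hB
    have HB : Uni e u B := H.compl hs hd
    have hBA : B ≤ A := by
      have : B ≤ K ⊔ B := le_sup_right
      rwa [← hs] at this
    have hfB : f ∉ B := by
      intro h
      have h1 : sp f ≤ supp K := Pool.Agent.W622.ETC.sp_le_supp hfK
      have h2 : sp f ≤ supp B := Pool.Agent.W622.ETC.sp_le_supp h
      have h3 : sp f = ⊥ := by
        rw [eq_bot_iff]
        intro φ hφ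
        rw [Submodule.disjoint_def] at hd
        rw [Submodule.mem_bot]
        exact hd φ (h1 hφ) (h2 hφ)
      exact hf.2.1 (Pool.Agent.W622.ETC.sp_eq_bot.1 h3)
    have hlt : (B : Set (Frm V)).ncard < n := by
      rw [← hn]
      refine Set.ncard_lt_ncard ?_ (Set.toFinite _)
      refine ⟨hBA, fun h => hfB (h hf.1)⟩
    rw [hs]
    exact El.prod K B hKe (ih _ hlt B rfl HB) hd

end

end Pool.Agent.H89QU
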