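import Pool.Agent.H89QU.Indep

set_option autoImplicit false
set_option linter.unusedSectionVars false

namespace Pool.Agent.H89QU

open Module Pool.Agent.W622.ETG

universe u

section
variable {V : Type u} [AddCommGroup V] [Module (ZMod 2) V] [Finite V] {e u : V} {A : Fam V}

/-- distinct irreducible members `f`, `g` with a common nonzero value `φ` -/
structure Meet (A : Fam V) (f g : Frm V) (φ : Dl V) : Prop where
  hf : Irr A f
  hg : Irr A g
  ne : f ≠ g
  mf : φ ∈ sp f
  mg : φ ∈ sp g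
  n0 : φ ≠ 0

theorem Meet.symm {f g : Frm V} {φ : Dl V} (M : Meet A f g φ) : Meet A g f φ :=
  ⟨M.hg, M.hf, M.ne.symm, M.mg, M.mf, M.n0⟩

theorem exists_meet {f g : Frm V} (hf : Irr A f) (hg : Irr A g) (hne : f ≠ g)
    (h : ¬ Disjoint (sp f) (sp g)) : ∃ φ, Meet A f g φ := by
  by_contra hc
  apply h
  rw [Submodule.disjoint_def]
  intro φ h1 h2
  by_contra h3
  exact hc ⟨φ, hf, hg, hne, h1, h2, h3⟩

theorem Meet.not_le {f g : Frm V} {φ : Dl V} (M : Meet A f g φ) : ¬ sp f ≤ sp g := by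
  intro h
  rcases M.hg.2.2 f M.hf.1 h with h1 | h1
  · exact M.hf.2.1 h1
  · exact M.ne h1

theorem Meet.uniq (H : Uni e u A) {f g : Frm V} {φ ψ : Dl V} (M : Meet A f g φ)
    (h1 : ψ ∈ sp f) (h2 : ψ ∈ sp g) (h0 : ψ ≠ 0) : ψ = φ :=
  Irr.inter_eq H M.hf M.hg.1 M.not_le h1 h2 h0 M.mf M.mg M.n0

/-- `φ` is not a value at `u` -/
theorem Meet.not_val (H : Uni e u A) {f g : Frm V} {φ : Dl V} (M : Meet A f g φ) {ω : Frm V}
    (hω : ω ∈ A) : ω u ≠ φ := by
  intro h
  rcases Irr.val H M.hf hω (h ▸ M.mf) with h1 | h1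
  · rw [h1] at h; exact M.n0 h.symm
  · apply M.not_le
    refine H.le_of_mem M.hg.1 M.hf.1 ?_
    rw [← h1, h]
    exact M.mg

theorem Meet.rad (H : Uni e u A) {f g : Frm V} {φ : Dl V} (M : Meet A f g φ) :
    (∀ r, g r = 0 → f r = 0 ∨ f r = φ) ∧ ∃ r, g r = 0 ∧ f r = φ :=
  Irr.inter H M.hf M.hg.1 M.not_le M.mf M.mg M.n0

theorem Meet.aux (H : Uni e u A) {f g : Frm V} {φ : Dl V} (M : Meet A f g φ) {ψ : Dl V}
    (hψ : ψ ∈ sp f) {r : V} (hr' : f r = φ) :
    (ψ r = 0 → ψ ∈ sp g) := by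
  intro h
  have hfe := H.ef f M.hf.1
  have hge := H.ef g M.hg.1
  rw [hge.mem_sp_iff]
  intro b hb
  rcases (M.rad H).1 b hb with h1 | h1
  · exact hfe.mem_sp_iff.1 hψ b h1
  · have h2 : f (b + r) = 0 := by rw [map_add, h1, hr', vadd]
    have h3 := hfe.mem_sp_iff.1 hψ _ h2
    rwa [map_add, h, add_zero] at h3

theorem Meet.apex_u (H : Uni e u A) {f g : Frm V} {φ : Dl V} (M : Meet A f g φ) : φ u = 1 := by
  obtain ⟨-, r, hr, hr'⟩ := M.rad H
  have hfe := H.ef f M.hf.1
  by_contra hc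
  have h0 := z_ne' hc
  have h1 : f u r = 0 := by rw [hfe.symm, hr', h0]
  have h2 : f u ∈ sp g := M.aux H ⟨u, rfl⟩ hr' h1
  exact M.not_le (H.le_of_mem M.hg.1 M.hf.1 h2)

/-- the support of `f` has order four -/
theorem Meet.sp_eq (H : Uni e u A) {f g : Frm V} {φ : Dl V} (M : Meet A f g φ) {ψ : Dl V}
    (hψ : ψ ∈ sp f) : ψ = 0 ∨ ψ = φ ∨ ψ = f u ∨ ψ = φ + f u := by
  obtain ⟨-, r, hr, hr'⟩ := M.rad H
  have hfe := H.ef f M.hf.1
  have hur : f u r = 1 := by rw [hfe.symm, hr', M.apex_u H]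
  rcases z01 (ψ r) with h | h
  · have h1 := M.aux H hψ hr' h
    by_cases h0 : ψ = 0
    · exact Or.inl h0
    · exact Or.inr (Or.inl (M.uniq H hψ h1 h0))
  · have h2 : (ψ + f u) r = 0 := by rw [LinearMap.add_apply, h, hur]; decide
    have h3 : ψ + f u ∈ sp f := Submodule.add_mem _ hψ ⟨u, rfl⟩
    have h1 := M.aux H h3 hr' h2
    by_cases h0 : ψ + f u = 0
    · exact Or.inr (Or.inr (Or.inl (aez.1 h0)))
    · have h4 := M.uniq H h3 h1 h0
      refine Or.inr (Or.inr (Or.inr ?_))
      rw [← h4, add_assoc, vadd, add_zero]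

/-- the apex is a value of the sum -/
theorem Meet.mem_add (H : Uni e u A) {f g : Frm V} {φ : Dl V} (M : Meet A f g φ) :
    φ ∈ sp (f + g) := by
  by_contra hc
  have h1 : ∀ c, f c = φ → g c = φ := by
    intro c hfc
    rcases Irr.sign H M.hg M.mg M.n0 M.hf.1 hfc with h | h
    · exfalso
      apply hc
      exact ⟨c, by rw [LinearMap.add_apply, hfc, h, add_zero]⟩
    · exact h
  apply M.symm.not_le
  refine le_of_ker (H.ef f M.hf.1) (H.ef g M.hg.1) ?_
  intro r hr
  obtain ⟨a, ha⟩ := M.mf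
  have h2 := h1 a ha
  have h3 := h1 (a + r) (by rw [map_add, hr, add_zero, ha])
  rw [map_add, h2] at h3
  exact left_eq_add.1 h3.symm

theorem Meet.exists_x (H : Uni e u A) {f g : Frm V} {φ : Dl V} (M : Meet A f g φ) :
    ∃ x, f x = φ ∧ g x = φ := by
  obtain ⟨a, ha⟩ := M.mf
  obtain ⟨c, hc⟩ := M.mg
  rcases Irr.sign H M.hg M.mg M.n0 M.hf.1 ha with h | h
  · rcases Irr.sign H M.hf M.mf M.n0 M.hg.1 hc with h' | h'
    · exact ⟨a + c, by rw [map_add, ha, h', add_zero], by rw [map_add, h, hc, zero_add]⟩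
    · exact ⟨c, h', hc⟩
  · exact ⟨a, ha, h⟩

theorem Meet.apex_e (H : Uni e u A) {f g : Frm V} {φ : Dl V} (M : Meet A f g φ) : φ e = 0 := by
  obtain ⟨x, hx1, hx2⟩ := M.exists_x H
  have h1 := (H.ef _ (A.add_mem M.hf.1 M.hg.1)).mem_sp_iff.1 (M.mem_add H) x (by
    rw [LinearMap.add_apply, hx1, hx2, vadd])
  have h2 := (H.ef f M.hf.1).sq x
  rw [hx1, h1] at h2
  exact h2.symm

/-- the sum is irreducible -/
theorem Meet.irr_add (H : Uni e u A) {f g : Frm V} {φ : Dl V} (M : Meet A f g φ) :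
    Irr A (f + g) := by
  have hfg : f + g ∈ A := A.add_mem M.hf.1 M.hg.1
  -- `f` is not below `f + g`
  have hno : ∀ f' g' : Frm V, Meet A f' g' φ → ¬ sp f' ≤ sp (f' + g') := by
    intro f' g' M' hle
    have h1 := Irr.disj_of_le H M'.hf (A.add_mem M'.hf.1 M'.hg.1) hle
    have h2 : f' + g' + f' = g' := by
      have : f' + g' + f' = (f' + f') + g' := by abel
      rw [this, add_self', zero_add]
    rw [h2, Submodule.disjoint_def] at h1
    exact M'.n0 (h1 φ M'.mf M'.mg)
  refine ⟨hfg, fun h => M.ne (aez.1 h), fun η hη hle => ?_⟩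
  obtain ⟨b, hb⟩ := hle ⟨u, rfl⟩
  have hb' : f b + g b = η u := by rw [← hb]; rfl
  -- values at `u` in the sum of the supports
  have hcase : ∀ ζ ∈ A, η u = φ + ζ u → False := by
    intro ζ hζ h
    refine M.not_val H (A.add_mem hη hζ) ?_
    rw [LinearMap.add_apply, h, add_assoc, vadd, add_zero]
  have hval : ∀ ζ ∈ A, η u = ζ u → η = ζ := fun ζ hζ h => H.eq_of hη hζ h
  have hf0 : η = 0 ∨ η = f ∨ η = g ∨ η = f + g := by
    rcases M.sp_eq H ⟨b, rfl⟩ with h1 | h1 | h1 | h1 <;>
      rcases M.symm.sp_eq H ⟨b, rfl⟩ with h2 | h2 | h2 | h2 <;> rw [h1, h2] at hb'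
    · left; exact hval 0 A.zero_mem (by rw [← hb', add_zero]; rfl)
    · exact (hcase 0 A.zero_mem (by rw [← hb', zero_add, LinearMap.zero_apply, add_zero])).elim
    · right; right; left; exact hval g M.hg.1 (by rw [← hb', zero_add])
    · exact (hcase g M.hg.1 (by rw [← hb', zero_add])).elim
    · exact (hcase 0 A.zero_mem (by rw [← hb', add_zero, LinearMap.zero_apply, add_zero])).elim
    · left; exact hval 0 A.zero_mem (by rw [← hb', vadd]; rfl)
    · exact (hcase g M.hg.1 hb'.symm).elim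
    · right; right; left
      exact hval g M.hg.1 (by rw [← hb', ← add_assoc, vadd, zero_add])
    · right; left; exact hval f M.hf.1 (by rw [← hb', add_zero])
    · exact (hcase f M.hf.1 (by rw [← hb', add_comm])).elim
    · right; right; right; exact hval (f + g) hfg (by rw [← hb']; rfl)
    · refine (hcase (f + g) hfg ?_).elim
      rw [← hb', LinearMap.add_apply]; abel
    · exact (hcase f M.hf.1 (by rw [← hb', add_zero])).elim
    · right; left
      refine hval f M.hf.1 ?_
      have : φ + f u + φ = (φ + φ) + f u := by abel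
      rw [← hb', this, vadd, zero_add]
    · refine (hcase (f + g) hfg ?_).elim
      rw [← hb', LinearMap.add_apply]; abel
    · right; right; right
      refine hval (f + g) hfg ?_
      have : φ + f u + (φ + g u) = (φ + φ) + (f u + g u) := by abel
      rw [← hb', this, vadd, zero_add]; rfl
  rcases hf0 with h | h | h | h
  · exact Or.inl h
  · exact absurd (h ▸ hle) (hno f g M)
  · refine absurd ?_ (hno g f M.symm)
    rw [add_comm]
    exact h ▸ hle
  · exact Or.inr h

theorem Meet.add (H : Uni e u A) {f g : Frm V} {φ : Dl V} (M : Meet A f g φ) :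
    Meet A f (f + g) φ :=
  ⟨M.hf, M.irr_add H, fun h => M.hg.2.1 (by
    have h1 : f + f = f + (f + g) := congrArg (f + ·) h
    rw [← add_assoc, add_self', zero_add] at h1
    exact h1.symm), M.mf, M.mem_add H, M.n0⟩

open Classical in
theorem ind_pair (H : Uni e u A) {f k : Frm V} (hf : Irr A f) (hk : Irr A k)
    (hd : Disjoint (sp f) (sp k)) : Ind {f, k} := by
  have hm : ∀ x ∈ ({f, k} : Finset (Frm V)), x = f ∨ x = k := by
    intro x hx
    rcases Finset.mem_insert.1 hx with h | h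
    · exact Or.inl h
    · exact Or.inr (Finset.mem_singleton.1 h)
  refine ind_of_pairwise H _ _ rfl ?_ ?_
  · intro x hx
    rcases hm x hx with h | h
    · rw [h]; exact hf
    · rw [h]; exact hk
  · intro x hx y hy hxy
    rcases hm x hx with h | h <;> rcases hm y hy with h' | h' <;> rw [h, h']
    · exact absurd (h.trans h'.symm) hxy
    · exact hd
    · exact hd.symm
    · exact absurd (h.trans h'.symm) hxy

/-- the apex of a class is unique -/
theorem Meet.apex_uniq (H : Uni e u A) {f g k : Frm V} {φ ψ : Dl V} (M : Meet A f g φ)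
    (N : Meet A g k ψ) : φ = ψ := by
  classical
  by_contra hne
  by_cases hfk : f = k
  · subst hfk
    exact hne (M.uniq H N.mg N.mf N.n0).symm
  -- `ψ = φ + g(u)`
  have hψ : ψ = φ + g u := by
    rcases M.symm.sp_eq H N.mf with h | h | h | h
    · exact absurd h N.n0
    · exact absurd h.symm hne
    · exact absurd h.symm (N.not_val H M.hg.1)
    · exact h
  by_cases hd : Disjoint (sp f) (sp k)
  · -- `g ≤ f + k`
    have hI : Ind {f, k} := ind_pair H M.hf N.hg hd
    have hs : ∑ x ∈ ({f, k} : Finset (Frm V)), x = f + k := Finset.sum_pair hfk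
    have hm : f + k ∈ A := A.add_mem M.hf.1 N.hg.1
    have h1 : φ ∈ sp (f + k) := by
      rw [sp_add (H.ef f M.hf.1) (H.ef k N.hg.1) hd]
      exact Submodule.mem_sup_left M.mf
    have h2 : ψ ∈ sp (f + k) := by
      rw [sp_add (H.ef f M.hf.1) (H.ef k N.hg.1) hd]
      exact Submodule.mem_sup_right N.mg
    have h3 : g u ∈ sp (f + k) := by
      have : g u = φ + ψ := by rw [hψ, ← add_assoc, vadd, zero_add]
      rw [this]
      exact Submodule.add_mem _ h1 h2
    have h4 : sp g ≤ sp (∑ x ∈ ({f, k} : Finset (Frm V)), x) := by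
      rw [hs]
      exact H.le_of_mem hm M.hg.1 h3
    have h5 := hI.mem_of_le H (by
      intro x hx
      rcases Finset.mem_insert.1 hx with rfl | hx
      · exact M.hf
      · rw [Finset.mem_singleton.1 hx]; exact N.hg) M.hg h4
    rcases Finset.mem_insert.1 h5 with h | h
    · exact M.ne h.symm
    · exact N.ne (Finset.mem_singleton.1 h)
  · obtain ⟨χ, L⟩ := exists_meet M.hf N.hg hfk hd
    have h1 : χ = φ + f u := by
      rcases M.sp_eq H L.mf with h | h | h | h
      · exact absurd h L.n0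
      · exact absurd (N.uniq H M.mg (h ▸ L.mg) M.n0) hne
      · exact absurd h.symm (L.not_val H M.hf.1)
      · exact h
    have h2 : χ = ψ + k u := by
      rcases N.symm.sp_eq H L.mg with h | h | h | h
      · exact absurd h L.n0
      · exfalso
        apply hne
        exact (M.uniq H (h ▸ L.mf) N.mf N.n0).symm
      · exact absurd h.symm (L.not_val H N.hg.1)
      · exact h
    -- `f = g + k`
    have h3 : f = g + k := by
      refine H.eq_of M.hf.1 (A.add_mem N.hf.1 N.hg.1) ?_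
      rw [h1, hψ] at h2
      have h4 : φ + f u = φ + (g u + k u) := by rw [h2, add_assoc]
      exact add_left_cancel h4
    have h5 : ψ ∈ sp f := by rw [h3]; exact N.mem_add H
    exact hne (M.uniq H h5 N.mf N.n0).symm

/-- the form of a member of a class -/
theorem Meet.eq_wd (H : Uni e u A) {f g : Frm V} {φ : Dl V} (M : Meet A f g φ) :
    f = wd e φ (f u) := by
  have hfe := H.ef f M.hf.1
  obtain ⟨a, ha⟩ := M.mf
  have hφa : φ a = 0 := by
    have := hfe.sq a
    rw [ha, M.apex_e H] at this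
    exact this
  have hua : f u a = 1 := by rw [hfe.symm, ha, M.apex_u H]
  have huu : f u u = f u e := hfe.sq u
  refine LinearMap.ext fun y => ?_
  rw [wd_apply]
  have h1 : f y u = f u y := hfe.symm y u
  have h2 : f y a = φ y := by rw [hfe.symm, ha]
  rcases M.sp_eq H ⟨y, rfl⟩ with h | h | h | h <;> rw [h] at h1 h2 ⊢
  · have e1 : φ y = 0 := h2.symm
    have e2 : f u y = 0 := h1.symm
    rw [e1, e2]; simp
  · have e1 : φ y = 0 := by rw [← h2, hφa]
    have e2 : f u y = 1 := by rw [← h1, M.apex_u H]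
    rw [e1, e2]; simp
  · have e1 : φ y = 1 := by rw [← h2, hua]
    have e2 : f u y = f u e := by rw [← h1, huu]
    rw [e1, e2, one_smul, mul_one, add_assoc, ← add_smul, zadd, zero_smul, add_zero]
  · rw [LinearMap.add_apply] at h1 h2
    have e1 : φ y = 1 := by rw [← h2, hφa, hua, zero_add]
    have e2 : f u y = 1 + f u e := by rw [← h1, M.apex_u H, huu]
    rw [e1, e2, one_smul, mul_one, add_assoc, ← add_smul, add_assoc, zadd, add_zero, one_smul,
      add_comm]

end

end Pool.Agent.H89QU
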