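import Pool.Agent.H89QU.Val

set_option autoImplicit false

/-! Structures with a universal slot are products of structures with at most two quaternions and
group extensions of structures with `q = 0`. -/

namespace Pool.Agent.H89QU

open Pool.Agent.H315R3.ETC Pool.Agent.TH673.VG

section
variable {S T : QData}

theorem univ_two (h : IsQuat S) (ht : TwoValues S) : ∃ u, Universal S u := by
  obtain ⟨t, ht⟩ := ht
  by_cases hex : ∃ a b, S.q a b = t
  · obtain ⟨a, b, hab⟩ := hex
    refine ⟨a, fun x y => ?_⟩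
    rcases ht x y with h1 | h1
    · exact ⟨1, by rw [h1, q_one h]⟩
    · exact ⟨b, by rw [h1, hab]⟩
  · push Not at hex
    refine ⟨1, fun x y => ?_⟩
    rcases ht x y with h1 | h1
    · exact ⟨1, by rw [h1, q_one h]⟩
    · exact absurd h1 (hex x y)

theorem ext_q11 (a b : S.G) : (ext S).q ((a, 1) : S.G × C2) ((b, 1) : S.G × C2) = (S.q a b, 1) := by
  show (S.q a b, pw (pw S.neg 1) 1 * pw a 1 * pw b 1) = (S.q a b, (1 : S.G))
  simp [pw_one']

theorem ext_q1g (a b : S.G) :
    (ext S).q ((a, 1) : S.G × C2) ((b, gen) : S.G × C2) = (S.q a b, a) := by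
  show (S.q a b, pw (pw S.neg 1) gen * pw a gen * pw b 1) = (S.q a b, a)
  rw [pw_one', pw_gen, pw_gen, pw_one', one_mul, mul_one]

theorem ext_qg1 (a b : S.G) :
    (ext S).q ((a, gen) : S.G × C2) ((b, 1) : S.G × C2) = (S.q a b, b) := by
  show (S.q a b, pw (pw S.neg gen) 1 * pw a 1 * pw b gen) = (S.q a b, b)
  rw [pw_one', pw_one', pw_gen, one_mul, one_mul]

theorem ext_qgg (a b : S.G) :
    (ext S).q ((a, gen) : S.G × C2) ((b, gen) : S.G × C2) = (S.q a b, S.neg * a * b) := by
  show (S.q a b, pw (pw S.neg gen) gen * pw a gen * pw b gen) = (S.q a b, S.neg * a * b)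
  rw [pw_gen, pw_gen, pw_gen, pw_gen]

/-- `x` is universal in `T[x]` if `q_T = 0` -/
theorem univ_ext (h0 : ∀ a b : S.G, S.q a b = S.zero) : ∃ u, Universal (ext S) u := by
  have hq : ∀ a b c d : S.G, S.q a b = S.q c d := fun a b c d => (h0 a b).trans (h0 c d).symm
  refine ⟨((1, gen) : S.G × C2), ?_⟩
  rintro (⟨a, α⟩ : S.G × C2) (⟨b, β⟩ : S.G × C2)
  rcases C2_cases α with rfl | rfl <;> rcases C2_cases β with rfl | rfl
  · exact ⟨((1, 1) : S.G × C2), by rw [ext_q11, ext_qg1, hq a b]⟩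
  · exact ⟨((a, 1) : S.G × C2), by rw [ext_q1g, ext_qg1, hq a b]⟩
  · exact ⟨((b, 1) : S.G × C2), by rw [ext_qg1, ext_qg1, hq a b]⟩
  · exact ⟨((S.neg * a * b, 1) : S.G × C2), by rw [ext_qgg, ext_qg1, hq a b]⟩

theorem univ_prod {u : S.G} {v : T.G} (hu : Universal S u) (hv : Universal T v) :
    Universal (prod S T) ((u, v) : S.G × T.G) := by
  rintro (⟨a, b⟩ : S.G × T.G) (⟨c, d⟩ : S.G × T.G)
  obtain ⟨z, hz⟩ := hu a c
  obtain ⟨w, hw⟩ := hv b d
  exact ⟨((z, w) : S.G × T.G), Prod.ext hz hw⟩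

theorem univ_left {u : (prod S T).G} (hu : Universal (prod S T) u) :
    Universal S (show S.G × T.G from u).1 := by
  intro x y
  obtain ⟨z, hz⟩ := hu ((x, 1) : S.G × T.G) ((y, 1) : S.G × T.G)
  exact ⟨(show S.G × T.G from z).1, congrArg Prod.fst hz⟩

theorem univ_right {u : (prod S T).G} (hu : Universal (prod S T) u) :
    Universal T (show S.G × T.G from u).2 := by
  intro x y
  obtain ⟨z, hz⟩ := hu ((1, x) : S.G × T.G) ((1, y) : S.G × T.G)
  exact ⟨(show S.G × T.G from z).2, congrArg Prod.snd hz⟩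

theorem univ_iso (e : Iso S T) {u : T.G} (hu : Universal (fz T) u) : ∃ v, Universal (fz S) v := by
  obtain ⟨φ, hn, hq⟩ := e
  refine ⟨φ.symm u, fun (x : S.G) (y : S.G) => ?_⟩
  obtain ⟨(z : T.G), hz⟩ := hu (φ x) (φ y)
  refine ⟨φ.symm z, ?_⟩
  show S.q x y = S.q (φ.symm u) (φ.symm z)
  rw [hq, φ.apply_symm_apply, φ.apply_symm_apply]
  exact hz

/-- universal slots in a group extension -/
theorem univ_ext_imp (h : IsQuat (fz (ext S))) {u : (fz (ext S)).G}
    (hu : Universal (fz (ext S)) u) :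
    (∃ g : S.G, ∀ x : S.G, x = 1 ∨ x = g) ∨ ∀ a b : S.G, S.q a b = S.q 1 1 := by
  have hS : IsQuat (fz S) := isQuat_of_ext h
  have g2 : ∀ x : S.G, x * x = 1 := hS.exp2
  obtain ⟨(t : S.G), (ξ : C2)⟩ := u
  rcases C2_cases ξ with rfl | rfl
  · -- `u = (t, 1)`
    left
    refine ⟨t, fun x => ?_⟩
    obtain ⟨(⟨z, ζ⟩ : S.G × C2), hz⟩ := hu ((1, gen) : S.G × C2) ((x, 1) : S.G × C2)
    have hz' : (ext S).q ((1, gen) : S.G × C2) ((x, 1) : S.G × C2) =
      (ext S).q ((t, 1) : S.G × C2) ((z, ζ) : S.G × C2) := hz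
    rcases C2_cases ζ with rfl | rfl
    · rw [ext_qg1, ext_q11] at hz'
      exact Or.inl (congrArg Prod.snd hz')
    · rw [ext_qg1, ext_q1g] at hz'
      exact Or.inr (congrArg Prod.snd hz')
  · -- `u = (t, x)`
    right
    intro a b
    obtain ⟨(⟨z, ζ⟩ : S.G × C2), hz⟩ := hu ((a, 1) : S.G × C2) ((b, 1) : S.G × C2)
    have hz' : (ext S).q ((a, 1) : S.G × C2) ((b, 1) : S.G × C2) =
      (ext S).q ((t, gen) : S.G × C2) ((z, ζ) : S.G × C2) := hz
    rcases C2_cases ζ with rfl | rfl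
    · rw [ext_q11, ext_qg1] at hz'
      have e1 : S.q a b = S.q t z := congrArg Prod.fst hz'
      have e2 : 1 = z := congrArg Prod.snd hz'
      rw [e1, ← e2]
      exact q_one hS t
    · rw [ext_q11, ext_qgg] at hz'
      have e1 : S.q a b = S.q t z := congrArg Prod.fst hz'
      have e2 : 1 = S.neg * t * z := congrArg Prod.snd hz'
      have e3 : z = S.neg * t := by
        have h3 := congrArg (fun y => S.neg * t * y) e2
        simp only [mul_one] at h3
        rw [← mul_assoc, g2, one_mul] at h3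
        exact h3.symm
      rw [e1, e3]
      exact hS.qs1 t

end

theorem prodEx_aux' (S : QData) (hE : Elem S) :
    IsQuat (fz S) → Finite S.G → (∃ u, Universal (fz S) u) → ProdEx (fz S) := by
  induction hE with
  | l0 => exact fun h hf _ => ProdEx.two _ h hf ⟨(), fun _ _ => Or.inl rfl⟩
  | l10 => exact fun h hf _ => ProdEx.two _ h hf ⟨(), fun _ _ => Or.inl rfl⟩
  | l11 => exact fun h hf _ => ProdEx.two _ h hf ⟨(), fun _ _ => Or.inl rfl⟩
  | l1 =>
    intro h hf _
    refine ProdEx.two _ h hf ⟨true, fun a b => ?_⟩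
    have hz : (fz L1).zero = false := by
      show decide ((1 : C2) = gen ∧ (1 : C2) = gen) = false
      simp [gen2]
    rw [hz]
    exact bool_or _
  | loc S hS =>
    intro h hf _
    obtain ⟨-, -, -, -, hc⟩ := hS
    refine ProdEx.two _ h hf ?_
    obtain ⟨x, y, hxy, hset⟩ := Set.ncard_eq_two.1 hc
    have hmem : ∀ a b : S.G, S.q a b = x ∨ S.q a b = y := by
      intro a b
      have : S.q a b ∈ {t : S.Q | ∃ a b : S.G, S.q a b = t} := ⟨a, b, rfl⟩
      rw [hset] at this
      simpa using this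
    rcases hmem 1 1 with h1 | h1
    · refine ⟨y, fun a b => ?_⟩
      show S.q a b = S.q 1 1 ∨ S.q a b = y
      rw [h1]; exact hmem a b
    · refine ⟨x, fun a b => ?_⟩
      show S.q a b = S.q 1 1 ∨ S.q a b = x
      rw [h1]; exact (hmem a b).symm
  | prod S T _ _ ih1 ih2 =>
    rintro h hf ⟨u, hu⟩
    have h' : IsQuat (prod (fz S) (fz T)) := h
    have hf' : Finite (S.G × T.G) := hf
    have hf1 : Finite S.G := Finite.of_surjective (fun x : S.G × T.G => x.1) Prod.fst_surjective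
    have hf2 : Finite T.G := Finite.of_surjective (fun x : S.G × T.G => x.2) Prod.snd_surjective
    have hu' : Universal (prod (fz S) (fz T)) u := hu
    exact ProdEx.prod (fz S) (fz T) (ih1 (isQuat_left h') hf1 ⟨_, univ_left hu'⟩)
      (ih2 (isQuat_right h') hf2 ⟨_, univ_right hu'⟩)
  | ext S _ _ =>
    rintro h hf ⟨u, hu⟩
    have hf' : Finite (S.G × C2) := hf
    have hf1 : Finite S.G := Finite.of_surjective (fun x : S.G × C2 => x.1) Prod.fst_surjective
    rcases univ_ext_imp h hu with h1 | h1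
    · exact prodEx_of_prodTwo (prodTwo_ext h h1)
    · have h2 := h
      rw [fz_ext] at h2 ⊢
      exact ProdEx.ext (fz S) h2 hf1 h1
  | iso S T _ hST ih =>
    rintro h hf ⟨u, hu⟩
    have hf1 : Finite S.G := by
      obtain ⟨φ, -, -⟩ := hST
      exact Finite.of_injective φ φ.injective
    exact ProdEx.iso _ _ (ih (isQuat_of_iso hST h) hf1 (univ_iso hST hu)) h hST

/-- structures with a universal slot -/
theorem prodEx_of_universal {S : QData} (h : IsQuat S) (hf : Finite S.G) {u : S.G}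
    (hu : Universal S u) : ProdEx S := by
  have h1 := prodEx_aux' S (elem_of_universal h hf hu)
  rw [fz_eq h] at h1
  exact h1 h hf ⟨u, hu⟩

theorem universal_of_prodEx {S : QData} (hS : ProdEx S) : ∃ u, Universal S u := by
  induction hS with
  | two S h _ ht => exact univ_two h ht
  | ext T _ _ h0 => exact univ_ext h0
  | prod S T _ _ h1 h2 =>
    obtain ⟨u, hu⟩ := h1
    obtain ⟨v, hv⟩ := h2
    exact ⟨_, univ_prod hu hv⟩
  | iso S T hS hT e h1 =>
    obtain ⟨u, hu⟩ := h1
    have hu' : Universal (fz S) u := hu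
    have h2 := univ_iso (iso_symm e) hu'
    rw [fz_eq hT] at h2
    exact h2

/-- the classification -/
theorem universal_iff {S : QData} (h : IsQuat S) (hf : Finite S.G) :
    ((∃ u, Universal S u) ↔ ProdEx S) ∧ ((∃ u, Universal S u) ↔ Core S = ⊤) := by
  refine ⟨⟨fun ⟨u, hu⟩ => prodEx_of_universal h hf hu, universal_of_prodEx⟩,
    ⟨fun ⟨u, hu⟩ => ?_, fun hc => universal_of_prodEx (prodEx_of_core h hf hc)⟩⟩
  exact (core_eq_top S).2 (reach_of_prodEx (prodEx_of_universal h hf hu)).2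

end Pool.Agent.H89QU
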