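import Pool.Agent.W622.ETG.Basic

set_option autoImplicit false
set_option linter.unusedSectionVars false

/-!
Linked families of forms `A` with an element `u` which is killed by no nonzero member of `A`
(in terms of quaternionic structures: every quaternion has the slot `u`).
-/

namespace Pool.Agent.H89QU

open Module Pool.Agent.W622.ETG

universe u

section
variable {V : Type u} [AddCommGroup V] [Module (ZMod 2) V]

/-- the situation: a linked family, no nonzero member kills `u` -/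
structure Uni (e u : V) (A : Fam V) : Prop where
  ef : EFam e A
  li : Linked A
  un : ∀ ω ∈ A, ω u = 0 → ω = 0

/-- irreducible members -/
abbrev Irr (A : Fam V) (f : Frm V) : Prop := Pool.Agent.W622.ETC.Prim A f

end

section
variable {V : Type u} [AddCommGroup V] [Module (ZMod 2) V] [Finite V] {e u : V} {A : Fam V}

theorem add_self' (ω : Frm V) : ω + ω = 0 := vadd ω

theorem aez {M : Type*} [AddCommGroup M] [Module (ZMod 2) M] {v w : M} : v + w = 0 ↔ v = w :=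
  Pool.Agent.W622.ETC.add_eq_zero'

theorem Uni.eq_of (H : Uni e u A) {ω η : Frm V} (hω : ω ∈ A) (hη : η ∈ A) (h : ω u = η u) :
    ω = η := by
  have h1 : ω + η = 0 := by
    refine H.un _ (A.add_mem hω hη) ?_
    rw [LinearMap.add_apply, h, vadd]
  exact aez.1 h1

/-- (F1) -/
theorem Uni.f1 (H : Uni e u A) {ω η : Frm V} (hω : ω ∈ A) (hη : η ∈ A) {x : V}
    (h : ω x = η u) : η x = η u := by
  obtain ⟨ζ, hζ, h1, h2⟩ := H.li ω hω η hη x u h
  have h3 : ζ = η := H.eq_of hζ hη (by rw [h2, h])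
  rw [h3] at h1
  rw [h1, h]

/-- (F3) -/
theorem Uni.f3 (H : Uni e u A) {ω η : Frm V} (hω : ω ∈ A) (hη : η ∈ A) {x y : V}
    (h : ω x = η u) (hy : ω y = 0) : η y = 0 := by
  have h1 : ω (x + y) = η u := by rw [map_add, hy, add_zero, h]
  have h2 := H.f1 hω hη h1
  rw [map_add, H.f1 hω hη h] at h2
  exact left_eq_add.1 h2.symm

theorem Uni.le_of_mem (H : Uni e u A) {ω η : Frm V} (hω : ω ∈ A) (hη : η ∈ A)
    (h : η u ∈ sp ω) : sp η ≤ sp ω := by
  obtain ⟨x, hx⟩ := h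
  intro φ hφ
  rw [(H.ef ω hω).mem_sp_iff]
  intro y hy
  exact (H.ef η hη).mem_sp_iff.1 hφ y (H.f3 hω hη hx hy)

theorem ker_of_le {ω η : Frm V} (hω : EF e ω) (hη : EF e η) (h : sp η ≤ sp ω) {y : V}
    (hy : ω y = 0) : η y = 0 := by
  rw [hη.ker_iff]
  intro f hf
  exact hω.mem_sp_iff.1 (h hf) y hy

theorem le_of_ker {ω η : Frm V} (hω : EF e ω) (hη : EF e η) (h : ∀ y, ω y = 0 → η y = 0) :
    sp η ≤ sp ω := by
  intro φ hφ
  rw [hω.mem_sp_iff]
  intro y hy
  exact hη.mem_sp_iff.1 hφ y (h y hy)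

/-- a functional which kills `K_v` and the radical of `f` -/
theorem split_ker {f : Frm V} (hf : EF e f) {v : V}
    (h : ∀ ω ∈ A, ω v ∈ sp f → ω v = 0 ∨ ω v = f v) {x : V} (hx : f v x = 0) :
    ∃ z r : V, x = z + r ∧ (∀ ω ∈ A, ω v z = 0) ∧ f r = 0 := by
  let K : Submodule (ZMod 2) V :=
    { carrier := {z | ∀ ω ∈ A, ω v z = 0}
      add_mem' := fun {a b} ha hb ω hω => by rw [map_add, ha ω hω, hb ω hω, add_zero]
      zero_mem' := fun ω _ => map_zero _
      smul_mem' := fun c a ha ω hω => by rw [map_smul, ha ω hω, smul_zero] }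
  have hK : ∀ z, z ∈ K ↔ ∀ ω ∈ A, ω v z = 0 := fun _ => Iff.rfl
  by_contra hc
  have hn : x ∉ K ⊔ LinearMap.ker f := by
    intro hm
    obtain ⟨z, hz, r, hr, e1⟩ := Submodule.mem_sup.1 hm
    exact hc ⟨z, r, e1.symm, hz, hr⟩
  obtain ⟨ψ, hψ1, hψ2⟩ := Submodule.exists_le_ker_of_notMem hn
  -- `ψ` is a value at `v`
  have h1 : ψ ∈ Submodule.map (LinearMap.applyₗ v : Frm V →ₗ[ZMod 2] Dl V) A := by
    refine mem_of_coann fun b hb => ?_
    have hbK : b ∈ K := by
      intro ω hω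
      exact hb _ ⟨ω, hω, rfl⟩
    exact hψ2 (Submodule.mem_sup_left hbK)
  obtain ⟨ω, hω, h2⟩ := h1
  have h2' : ω v = ψ := h2
  have h3 : ψ ∈ sp f := by
    rw [hf.mem_sp_iff]
    intro b hb
    exact hψ2 (Submodule.mem_sup_right hb)
  rcases h ω hω (h2' ▸ h3) with h4 | h4
  · apply hψ1
    rw [← h2', h4]; rfl
  · apply hψ1
    rw [← h2', h4, hx]

/-- `β(u,·)` is surjective -/
theorem Uni.surj (H : Uni e u A) (c s : V) : ∃ k : V, ∀ ω ∈ A, ω u k = ω c s := by
  let E : DSub V := Submodule.map (LinearMap.applyₗ u : Frm V →ₗ[ZMod 2] Dl V) A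
  have hE : ∀ ψ : E, ∃ ω ∈ A, ω u = ψ.1 := by
    rintro ⟨ψ, ω, hω, h⟩
    exact ⟨ω, hω, h⟩
  choose g hg1 hg2 using hE
  let Λ : E →ₗ[ZMod 2] ZMod 2 :=
    { toFun := fun ψ => g ψ c s
      map_add' := fun ψ ψ' => by
        have h1 : g (ψ + ψ') = g ψ + g ψ' := by
          refine H.eq_of (hg1 _) (A.add_mem (hg1 _) (hg1 _)) ?_
          rw [LinearMap.add_apply, hg2, hg2, hg2]; rfl
        show g (ψ + ψ') c s = g ψ c s + g ψ' c s
        rw [h1]; rfl
      map_smul' := fun t ψ => by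
        have h1 : g (t • ψ) = t • g ψ := by
          refine H.eq_of (hg1 _) (A.smul_mem t (hg1 _)) ?_
          rw [LinearMap.smul_apply, hg2, hg2]; rfl
        show g (t • ψ) c s = t • g ψ c s
        rw [h1]; rfl }
  obtain ⟨k, hk⟩ := exists_val E Λ
  refine ⟨k, fun ω hω => ?_⟩
  have h1 := hk ⟨ω u, ω, hω, rfl⟩
  have h2 : g ⟨ω u, ω, hω, rfl⟩ = ω := H.eq_of (hg1 _) hω (hg2 _)
  have h3 : Λ ⟨ω u, ω, hω, rfl⟩ = ω c s := by
    show g ⟨ω u, ω, hω, rfl⟩ c s = _
    rw [h2]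
  rw [h3] at h1
  exact h1

/-- a functional outside `{0, φ}` is nonzero somewhere on the kernel of `φ` -/
theorem exists_sep {φ ψ : Dl V} (h0 : ψ ≠ 0) (h1 : ψ ≠ φ) : ∃ s : V, φ s = 0 ∧ ψ s = 1 := by
  by_contra hc
  push Not at hc
  have hm : ψ ∈ Submodule.span (ZMod 2) {φ} := by
    refine mem_of_coann fun b hb => z_ne' (hc b ?_)
    exact hb φ (Submodule.mem_span_singleton_self φ)
  rcases span_one_mem.1 hm with h | h
  · exact h0 h
  · exact h1 h

theorem exists_one {ψ : Dl V} (h0 : ψ ≠ 0) : ∃ s : V, ψ s = 1 := by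
  by_contra hc
  push Not at hc
  exact h0 (LinearMap.ext fun a => z_ne' (hc a))

/-- two distinct nonzero functionals are both one somewhere -/
theorem exists_both {φ ψ : Dl V} (h0 : ψ ≠ 0) (h0' : φ ≠ 0) (h1 : ψ ≠ φ) :
    ∃ s : V, φ s = 1 ∧ ψ s = 1 := by
  obtain ⟨s, hs1, hs2⟩ := exists_sep h0 h1
  obtain ⟨t, ht1, ht2⟩ := exists_sep h0' h1.symm
  exact ⟨s + t, by rw [map_add, hs1, ht2, zero_add], by rw [map_add, hs2, ht1, add_zero]⟩

theorem Irr.val (H : Uni e u A) {f : Frm V} (hf : Irr A f) {ω : Frm V} (hω : ω ∈ A)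
    (h : ω u ∈ sp f) : ω = 0 ∨ ω = f :=
  hf.2.2 ω hω (H.le_of_mem hf.1 hω h)

theorem Irr.u_ne (H : Uni e u A) {f : Frm V} (hf : Irr A f) : f u ≠ 0 :=
  fun h => hf.2.1 (H.un f hf.1 h)

/-- `K_u + R_f = ker f(u)` -/
theorem Irr.split_u (H : Uni e u A) {f : Frm V} (hf : Irr A f) {x : V} (hx : f u x = 0) :
    ∃ z r : V, x = z + r ∧ (∀ ω ∈ A, ω u z = 0) ∧ f r = 0 := by
  refine split_ker (H.ef f hf.1) ?_ hx
  intro ω hω h
  rcases Irr.val H hf hω h with h1 | h1
  · left; rw [h1]; rfl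
  · right; rw [h1]

/-- sign lemma, first case -/
theorem Irr.sign1 (H : Uni e u A) {f : Frm V} (hf : Irr A f) {φ : Dl V} (hφ : φ ∈ sp f)
    (hφu : φ u = 1) {ω : Frm V} (hω : ω ∈ A) {c : V} (hc : ω c = φ) : f c = 0 ∨ f c = φ := by
  by_contra hcon
  push Not at hcon
  obtain ⟨s, hs1, hs2⟩ := exists_sep hcon.1 hcon.2
  obtain ⟨k, hk⟩ := H.surj c s
  obtain ⟨a, ha⟩ := hφ
  have hfe := H.ef f hf.1
  have h1 : f u (k + a) = 0 := by
    rw [map_add, hk f hf.1, hs2, hfe.symm u a, ha, hφu]; decide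
  obtain ⟨z, r, h2, hz, hr⟩ := Irr.split_u H hf h1
  -- `a' = a + r = k + z`
  have h3 : a + r = k + z := by
    have : k + a + r = z + r + r := by rw [h2]
    rw [add_assoc z, vadd, add_zero] at this
    rw [← this]
    have h4 : k + (k + a + r) = (k + k) + (a + r) := by abel
    rw [h4, vadd, zero_add]
  have h4 : f (a + r) = φ := by rw [map_add, hr, add_zero, ha]
  obtain ⟨ζ, hζ, h5, h6⟩ := H.li f hf.1 ω hω (a + r) c (by rw [h4, hc])
  rw [h4] at h5 h6
  have h7 : ζ u (a + r) = ζ c s := by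
    rw [h3, map_add, hz ζ hζ, add_zero, hk ζ hζ]
  rw [(H.ef ζ hζ).symm, h5, h6, hφu, hs1] at h7
  exact one_ne_zero h7

/-- sign lemma: if `φ ∈ X_f` is nonzero and a value at `c`, then `f(c) ∈ {0, φ}` -/
theorem Irr.sign (H : Uni e u A) {f : Frm V} (hf : Irr A f) {φ : Dl V} (hφ : φ ∈ sp f)
    (hφ0 : φ ≠ 0) {ω : Frm V} (hω : ω ∈ A) {c : V} (hc : ω c = φ) : f c = 0 ∨ f c = φ := by
  have hfe := H.ef f hf.1
  rcases z01 (φ u) with hφu | hφu
  swap
  · exact Irr.sign1 H hf hφ hφu hω hc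
  by_cases hfu : φ = f u
  · right
    rw [H.f1 hω hf.1 (hc.trans hfu), hfu]
  by_contra hcon
  push Not at hcon
  obtain ⟨s, hs1, hs2⟩ := exists_sep hcon.1 hcon.2
  obtain ⟨k, hk⟩ := H.surj c s
  obtain ⟨a, ha⟩ := hφ
  -- claim V
  have hV : ∀ v : V, f u v = 1 → ∀ η ∈ A, η v ∈ sp f → η v = 0 ∨ η v = f v := by
    intro v hv η hη hm
    have hfv : f v u = 1 := by rw [hfe.symm]; exact hv
    have hfv0 : f v ≠ 0 := by
      intro h
      rw [h] at hfv
      exact zero_ne_one hfv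
    rcases z01 (η v u) with h1 | h1
    · left
      have h2 : (f + η) v u = 1 := by
        rw [LinearMap.add_apply, LinearMap.add_apply, hfv, h1, add_zero]
      have h3 : (f + η) v ∈ sp f := Submodule.add_mem _ ⟨v, rfl⟩ hm
      rcases Irr.sign1 H hf h3 h2 (A.add_mem hf.1 hη) rfl with h4 | h4
      · exact absurd h4 hfv0
      · rw [LinearMap.add_apply] at h4
        exact left_eq_add.1 h4
    · right
      rcases Irr.sign1 H hf hm h1 hη rfl with h4 | h4
      · exact absurd h4 hfv0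
      · exact h4.symm
  obtain ⟨y, hy1, hy2⟩ := exists_both hφ0 (Irr.u_ne H hf) hfu
  have h1 : f u (k + y) = 0 := by
    rw [map_add, hk f hf.1, hs2, hy1]; decide
  obtain ⟨z, r, h2, hz, hr⟩ := Irr.split_u H hf h1
  have h3 : k + z = y + r := by
    have h4 : k + z = k + (z + r) + r := by
      rw [← add_assoc, add_assoc (k + z), vadd, add_zero]
    rw [h4, ← h2, ← add_assoc, vadd, zero_add]
  have hφr : φ r = 0 := by rw [← ha, hfe.symm, hr]; rfl
  have h4 : φ (k + z) = 1 := by rw [h3, map_add, hy2, hφr, add_zero]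
  have h5 : f u (k + z) = 1 := by rw [map_add, hk f hf.1, hs2, hz f hf.1, add_zero]
  have h6 : f (k + z) (a + u) = 0 := by
    rw [map_add, hfe.symm (k + z) a, ha, h4, hfe.symm (k + z) u, h5]; decide
  obtain ⟨w, r', h7, hw, hr'⟩ := split_ker hfe (hV _ h5) h6
  have h8 : a + r' = u + w := by
    have h9 : a + r' = (a + u) + (u + r') := by
      have : (a + u) + (u + r') = a + (u + u) + r' := by abel
      rw [this, vadd, add_zero]
    rw [h9, h7]
    have : w + r' + (u + r') = u + w + (r' + r') := by abel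
    rw [this, vadd, add_zero]
  have h9 : f (a + r') = φ := by rw [map_add, hr', add_zero, ha]
  obtain ⟨ζ, hζ, h10, h11⟩ := H.li f hf.1 ω hω (a + r') c (by rw [h9, hc])
  rw [h9] at h10 h11
  have h12 : ζ (k + z) (a + r') = ζ c s := by
    rw [h8, map_add, hw ζ hζ, add_zero, (H.ef ζ hζ).symm, map_add, hz ζ hζ, add_zero, hk ζ hζ]
  rw [(H.ef ζ hζ).symm, h10, h11, h4, hs1] at h12
  exact one_ne_zero h12

end

end Pool.Agent.H89QU
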